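import Pool.Agent.Lib.MP_28303a_al.NK.Defs

/-! # Block triangular matrices with small blocks -/

set_option autoImplicit false
set_option linter.unusedSectionVars false

namespace Pool.Agent.NegK.NT.H80

universe u v

section ring

variable {M : Type v} [Ring M]

theorem pow_one_add (x : M) (m : ℕ) :
    ∃ c : M, Commute x c ∧ (1 + x) ^ m = 1 + (m : M) * x + x ^ 2 * c := by
  induction m with
  | zero => exact ⟨0, Commute.zero_right x, by simp⟩
  | succ m ih =>
    obtain ⟨c, hc, h⟩ := ih
    have hm : Commute x (m : M) := Nat.commute_cast x m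
    refine ⟨(m : M) + c + c * x, ?_, ?_⟩
    · exact (hm.add_right hc).add_right (hc.mul_right (Commute.refl x))
    · rw [pow_succ, h]
      have h1 : (m : M) * x * x = x ^ 2 * (m : M) := by
        rw [mul_assoc, ← pow_two, (hm.pow_left 2).eq]
      have h2 : (1 + (m : M) * x + x ^ 2 * c) * (1 + x) =
          1 + ((m : M) + 1) * x + ((m : M) * x * x + x ^ 2 * c + x ^ 2 * (c * x)) := by
        noncomm_ring
      rw [h2, h1, Nat.cast_succ]
      noncomm_ring

/-- Unipotent elements have finite order in positive characteristic. -/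
theorem unip {N : ℕ} (hN : 0 < N) (hM : (N : M) = 0) (s : ℕ) :
    ∀ x : M, x ^ s = 0 → ∃ n : ℕ, 0 < n ∧ (1 + x) ^ n = 1 := by
  induction s using Nat.strong_induction_on with
  | _ s ih =>
    intro x hx
    rcases Nat.lt_or_ge s 2 with hs | hs
    · refine ⟨1, one_pos, ?_⟩
      have h0 : x = 0 := by
        interval_cases s
        · rw [pow_zero] at hx
          rw [← mul_one x, hx, mul_zero]
        · rw [pow_one] at hx
          exact hx
      rw [h0, add_zero, one_pow]
    · obtain ⟨c, hc, h⟩ := pow_one_add x N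
      rw [hM, zero_mul, add_zero] at h
      have h1 : (x ^ 2 * c) ^ (s - 1) = 0 := by
        rw [(hc.pow_left 2).mul_pow, ← pow_mul]
        have h2 : 2 * (s - 1) = s + (s - 2) := by omega
        rw [h2, pow_add, hx, zero_mul, zero_mul]
      obtain ⟨n, hn, h3⟩ := ih (s - 1) (by omega) (x ^ 2 * c) h1
      exact ⟨N * n, Nat.mul_pos hN hn, by rw [pow_mul, h, h3]⟩

end ring

section block

variable {A : Type u} [CommRing A] {ι : Type} [Fintype ι] [DecidableEq ι] (b : ι → ℕ)

/-- Powers of strictly block triangular matrices. -/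
theorem strict_pow {x : Matrix ι ι A} (hx : ∀ i j, b j ≤ b i → x i j = 0) (s : ℕ) :
    ∀ i j, b j < b i + s → (x ^ s) i j = 0 := by
  induction s with
  | zero =>
    intro i j hij
    rw [pow_zero, Matrix.one_apply_ne]
    rintro rfl
    omega
  | succ s ih =>
    intro i j hij
    rw [pow_succ, Matrix.mul_apply]
    refine Finset.sum_eq_zero fun l _ => ?_
    rcases Nat.lt_or_ge (b l) (b i + s) with h | h
    · rw [ih i l h, zero_mul]
    · rw [hx l j (by omega), mul_zero]

theorem strict_nilp {x : Matrix ι ι A} (hx : ∀ i j, b j ≤ b i → x i j = 0) :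
    ∃ s : ℕ, x ^ s = 0 := by
  refine ⟨(∑ i, b i) + 1, Matrix.ext fun i j => ?_⟩
  refine strict_pow b hx _ i j ?_
  have := Finset.single_le_sum (f := b) (fun _ _ => Nat.zero_le _) (Finset.mem_univ j)
  omega

variable (e : ι → Fin 2)

/-- The projection to the block `k`. -/
def PB (A : Type u) [CommRing A] (k : ℕ) : Matrix (Fin 2) ι A :=
  Matrix.of fun p i => if b i = k ∧ e i = p then 1 else 0

variable {b e}

theorem PB_sq (he : ∀ i j, b i = b j → e i = e j → i = j) (k : ℕ) (i j : ι) :
    ((PB b e A k).transpose * PB b e A k) i j = if i = j ∧ b i = k then 1 else 0 := by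
  rw [Matrix.mul_apply]
  simp only [Matrix.transpose_apply, PB, Matrix.of_apply]
  by_cases h1 : b i = k
  · by_cases h2 : b j = k
    · by_cases h3 : e i = e j
      · have h4 : i = j := he i j (h1.trans h2.symm) h3
        subst h4
        rw [if_pos ⟨rfl, h1⟩, Finset.sum_eq_single (e i)]
        · rw [if_pos ⟨h1, rfl⟩, mul_one]
        · intro p _ hp
          rw [if_neg fun h => hp h.2.symm, zero_mul]
        · intro h
          exact absurd (Finset.mem_univ _) h
      · have h4 : i ≠ j := fun h => h3 (congrArg e h)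
        rw [if_neg fun h => h4 h.1]
        refine Finset.sum_eq_zero fun p _ => ?_
        by_cases h5 : e i = p
        · rw [if_neg (c := b j = k ∧ e j = p) fun h => h3 (h5.trans h.2.symm), mul_zero]
        · rw [if_neg fun h => h5 h.2, zero_mul]
    · have h4 : i ≠ j := fun h => h2 (h ▸ h1)
      rw [if_neg fun h => h4 h.1]
      refine Finset.sum_eq_zero fun p _ => ?_
      rw [if_neg (c := b j = k ∧ e j = p) fun h => h2 h.1, mul_zero]
  · rw [if_neg fun h => h1 h.2]
    refine Finset.sum_eq_zero fun p _ => ?_
    rw [if_neg fun h => h1 h.1, zero_mul]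

theorem PB_mul (he : ∀ i j, b i = b j → e i = e j → i = j) (k : ℕ) :
    PB b e A k * ((PB b e A k).transpose * PB b e A k) = PB b e A k := by
  refine Matrix.ext fun p i => ?_
  rw [Matrix.mul_apply, Finset.sum_eq_single i]
  · rw [PB_sq he]
    by_cases h : b i = k
    · rw [if_pos ⟨rfl, h⟩, mul_one]
    · rw [if_neg fun h1 => h h1.2, mul_zero, PB, Matrix.of_apply, if_neg fun h1 => h h1.1]
  · intro j _ hj
    rw [PB_sq he, if_neg fun h => hj h.1, mul_zero]
  · intro h
    exact absurd (Finset.mem_univ _) h

variable (b e) in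
/-- The block `k` of a matrix. -/
def DB (k : ℕ) (M : Matrix ι ι A) : Matrix (Fin 2) (Fin 2) A :=
  PB b e A k * M * (PB b e A k).transpose + (1 - PB b e A k * (PB b e A k).transpose)

theorem DB_one (k : ℕ) : DB b e k (1 : Matrix ι ι A) = 1 := by
  rw [DB, Matrix.mul_one]
  abel

theorem PB_tri (he : ∀ i j, b i = b j → e i = e j → i = j) (k : ℕ) {M M' : Matrix ι ι A}
    (h : ∀ i j, b j < b i → M i j = 0) (h' : ∀ i j, b j < b i → M' i j = 0) :
    PB b e A k * M * ((PB b e A k).transpose * PB b e A k) * M' * (PB b e A k).transpose =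
      PB b e A k * (M * M') * (PB b e A k).transpose := by
  have key : ∀ p q, (PB b e A k * (M * ((1 : Matrix ι ι A) - (PB b e A k).transpose *
      PB b e A k) * M') * (PB b e A k).transpose : Matrix (Fin 2) (Fin 2) A) p q = 0 := by
    intro p q
    rw [Matrix.mul_apply]
    refine Finset.sum_eq_zero fun j _ => ?_
    rw [Matrix.transpose_apply]
    by_cases hj : b j = k
    · have h1 : (PB b e A k * (M * ((1 : Matrix ι ι A) - (PB b e A k).transpose *
          PB b e A k) * M') : Matrix (Fin 2) ι A) p j = 0 := by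
        rw [Matrix.mul_apply]
        refine Finset.sum_eq_zero fun i _ => ?_
        by_cases hi : b i = k
        · have h2 : (M * ((1 : Matrix ι ι A) - (PB b e A k).transpose * PB b e A k) * M' :
              Matrix ι ι A) i j = 0 := by
            rw [Matrix.mul_assoc, Matrix.mul_apply]
            refine Finset.sum_eq_zero fun l _ => ?_
            rcases lt_trichotomy (b l) k with hl | hl | hl
            · rw [h i l (by omega), zero_mul]
            · have h3 : (((1 : Matrix ι ι A) - (PB b e A k).transpose * PB b e A k) * M' :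
                  Matrix ι ι A) l j = 0 := by
                rw [Matrix.mul_apply]
                refine Finset.sum_eq_zero fun m _ => ?_
                rw [Matrix.sub_apply, PB_sq he, Matrix.one_apply]
                by_cases hm : l = m
                · rw [if_pos hm, if_pos ⟨hm, hl⟩, sub_self, zero_mul]
                · rw [if_neg hm, if_neg fun h4 => hm h4.1, sub_self, zero_mul]
              rw [h3, mul_zero]
            · have h3 : (((1 : Matrix ι ι A) - (PB b e A k).transpose * PB b e A k) * M' :
                  Matrix ι ι A) l j = 0 := by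
                rw [Matrix.mul_apply]
                refine Finset.sum_eq_zero fun m _ => ?_
                by_cases hm : l = m
                · rw [← hm, h' l j (by omega), mul_zero]
                · rw [Matrix.sub_apply, PB_sq he, Matrix.one_apply, if_neg hm,
                    if_neg fun h4 => hm h4.1, sub_self, zero_mul]
              rw [h3, mul_zero]
          rw [h2, mul_zero]
        · rw [PB, Matrix.of_apply, if_neg fun h2 => hi h2.1, zero_mul]
      rw [h1, zero_mul]
    · rw [PB, Matrix.of_apply, if_neg fun h2 => hj h2.1, mul_zero]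
  have key' : PB b e A k * (M * (1 - (PB b e A k).transpose * PB b e A k) * M') *
      (PB b e A k).transpose = 0 := Matrix.ext key
  have h5 : PB b e A k * (M * M') * (PB b e A k).transpose -
      PB b e A k * M * ((PB b e A k).transpose * PB b e A k) * M' * (PB b e A k).transpose = 0 := by
    rw [← key']
    simp only [Matrix.mul_sub, Matrix.sub_mul, Matrix.mul_one, Matrix.mul_assoc]
  exact (sub_eq_zero.1 h5).symm

theorem DB_mul (he : ∀ i j, b i = b j → e i = e j → i = j) (k : ℕ) {M M' : Matrix ι ι A}
    (h : ∀ i j, b j < b i → M i j = 0) (h' : ∀ i j, b j < b i → M' i j = 0) :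
    DB b e k (M * M') = DB b e k M * DB b e k M' := by
  have h1 := PB_mul (A := A) he k
  have h2 := PB_tri he k h h'
  have h3 : (PB b e A k).transpose * (PB b e A k * (PB b e A k).transpose) =
      (PB b e A k).transpose := by
    have := congrArg Matrix.transpose h1
    rw [Matrix.transpose_mul, Matrix.transpose_mul, Matrix.transpose_transpose,
      Matrix.mul_assoc] at this
    exact this
  unfold DB
  generalize PB b e A k = P at *
  have h4 : P * M * P.transpose * (P * M' * P.transpose) =
      P * M * (P.transpose * P) * M' * P.transpose := by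
    simp only [Matrix.mul_assoc]
  have h5 : P * M * P.transpose * (1 - P * P.transpose) = 0 := by
    rw [Matrix.mul_sub, Matrix.mul_one, Matrix.mul_assoc (P * M), h3, sub_self]
  have h6 : (1 - P * P.transpose) * (P * M' * P.transpose) = 0 := by
    rw [Matrix.sub_mul, Matrix.one_mul]
    have : P * P.transpose * (P * M' * P.transpose) = P * (P.transpose * P) * M' * P.transpose := by
      simp only [Matrix.mul_assoc]
    rw [this, h1, sub_self]
  have h7 : (1 - P * P.transpose) * (1 - P * P.transpose) = 1 - P * P.transpose := by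
    rw [Matrix.mul_sub, Matrix.mul_one, Matrix.sub_mul, Matrix.one_mul, Matrix.mul_assoc P,
      h3, sub_self, sub_zero]
  rw [add_mul, mul_add, mul_add, h4, h2, h5, h6, h7, add_zero, zero_add]

theorem DB_inj (he : ∀ i j, b i = b j → e i = e j → i = j) (k : ℕ) {M : Matrix ι ι A}
    (h : DB b e k M = 1) (i j : ι) (hi : b i = k) (hj : b j = k) :
    M i j = (1 : Matrix ι ι A) i j := by
  have h1 : PB b e A k * M * (PB b e A k).transpose = PB b e A k * (PB b e A k).transpose := by
    have h2 : PB b e A k * M * (PB b e A k).transpose + (1 - PB b e A k * (PB b e A k).transpose)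
      = 1 := h
    have h3 := congrArg (fun X => X - (1 - PB b e A k * (PB b e A k).transpose)) h2
    simpa using h3
  have h2 : (PB b e A k * M * (PB b e A k).transpose) (e i) (e j) = M i j := by
    rw [Matrix.mul_apply, Finset.sum_eq_single j, Matrix.mul_apply, Finset.sum_eq_single i]
    · simp only [PB, Matrix.transpose_apply, Matrix.of_apply]
      rw [if_pos ⟨hi, trivial⟩, if_pos ⟨hj, trivial⟩, one_mul, mul_one]
    · intro l _ hl
      simp only [PB, Matrix.of_apply]
      rw [if_neg fun h => hl (he l i (h.1.trans hi.symm) h.2), zero_mul]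
    · intro h
      exact absurd (Finset.mem_univ _) h
    · intro l _ hl
      simp only [PB, Matrix.transpose_apply, Matrix.of_apply]
      rw [if_neg fun h => hl (he l j (h.1.trans hj.symm) h.2), mul_zero]
    · intro h
      exact absurd (Finset.mem_univ _) h
  have h3 : (PB b e A k * (PB b e A k).transpose) (e i) (e j) = (1 : Matrix ι ι A) i j := by
    rw [Matrix.mul_apply, Finset.sum_eq_single i]
    · simp only [PB, Matrix.transpose_apply, Matrix.of_apply]
      rw [if_pos ⟨hi, trivial⟩, one_mul, Matrix.one_apply]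
      by_cases hij : i = j
      · subst hij
        rw [if_pos ⟨hi, rfl⟩, if_pos rfl]
      · rw [if_neg fun h => hij (he i j (hi.trans hj.symm) h.2), if_neg hij]
    · intro l _ hl
      simp only [PB, Matrix.of_apply]
      rw [if_neg fun h => hl (he l i (h.1.trans hi.symm) h.2), zero_mul]
    · intro h
      exact absurd (Finset.mem_univ _) h
  rw [← h2, h1, h3]

end block

/-- Groups of block triangular matrices with diagonal blocks of size at most two over a
commutative ring of positive characteristic: the diagonal blocks give a homomorphism to a group of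
`2 × 2`-matrices with periodic kernel. -/
theorem exists_diag {A : Type u} [CommRing A] {N : ℕ} (hN : 0 < N) (hA : (N : A) = 0) {n : ℕ}
    (b : Fin n → ℕ) (hb : ∀ k, (Finset.univ.filter fun i => b i = k).card ≤ 2)
    {Γ : Type v} [Group Γ] (χ : Γ →* GL (Fin n) A)
    (htri : ∀ g, (χ g : Matrix (Fin n) (Fin n) A).BlockTriangular b) :
    ∃ (r : ℕ) (φ : Γ →* GL (Fin 2) (Fin r → A)), (∀ g, χ g = 1 → φ g = 1) ∧
      ∀ g, φ g = 1 → ∃ m, 0 < m ∧ χ g ^ m = 1 := by
  classical
  -- positions in the blocks
  have hf : ∀ k : ℕ, ∃ f : {i // b i = k} → Fin 2, Function.Injective f := fun k => by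
    have h1 : Fintype.card {i // b i = k} ≤ Fintype.card (Fin 2) := by
      rw [Fintype.card_fin, Fintype.card_subtype]
      exact hb k
    obtain ⟨f⟩ := Function.Embedding.nonempty_of_card_le h1
    exact ⟨f, f.injective⟩
  choose f hf using hf
  let e : Fin n → Fin 2 := fun i => f (b i) ⟨i, rfl⟩
  have he : ∀ i j, b i = b j → e i = e j → i = j := by
    intro i j h1 h2
    have h3 : ∀ (k l : ℕ) (hk : b i = k) (hl : b j = l), k = l →
        f k ⟨i, hk⟩ = f l ⟨j, hl⟩ → i = j := by
      intro k l hk hl hkl h4
      subst hkl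
      exact congrArg Subtype.val (hf k h4)
    exact h3 _ _ rfl rfl h1 h2
  let r : ℕ := (∑ i, b i) + 1
  have hr : ∀ i, b i < r := fun i => Nat.lt_succ_of_le
    (Finset.single_le_sum (f := b) (fun _ _ => Nat.zero_le _) (Finset.mem_univ i))
  have htri' : ∀ g i j, b j < b i → (χ g : Matrix (Fin n) (Fin n) A) i j = 0 :=
    fun g i j h => htri g h
  let φ : Γ →* Matrix (Fin 2) (Fin 2) (Fin r → A) :=
    { toFun := fun g => Matrix.of fun p q k => DB b e (k : ℕ) (χ g : Matrix (Fin n) (Fin n) A) p q
      map_one' := by
        refine Matrix.ext fun p q => funext fun k => ?_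
        rw [Matrix.of_apply, map_one, Units.val_one, DB_one, Matrix.one_apply, Matrix.one_apply]
        split_ifs <;> rfl
      map_mul' := fun g h => by
        refine Matrix.ext fun p q => funext fun k => ?_
        rw [Matrix.of_apply, map_mul, Units.val_mul, DB_mul he k (htri' g) (htri' h),
          Matrix.mul_apply, Matrix.mul_apply, Finset.sum_apply]
        rfl }
  refine ⟨r, φ.toHomUnits, fun g hg => Units.ext ?_, fun g hg => ?_⟩
  · show φ g = 1
    refine Matrix.ext fun p q => funext fun k => ?_
    show DB b e (k : ℕ) (χ g : Matrix (Fin n) (Fin n) A) p q = _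
    rw [hg, Units.val_one, DB_one, Matrix.one_apply, Matrix.one_apply]
    split_ifs <;> rfl
  have h1 : ∀ k : Fin r, DB b e (k : ℕ) (χ g : Matrix (Fin n) (Fin n) A) = 1 := by
    intro k
    have h2 : φ g = 1 := congrArg Units.val hg
    refine Matrix.ext fun p q => ?_
    have h3 := congrFun (congrFun (congrFun h2 p) q) k
    have h4 : (1 : Matrix (Fin 2) (Fin 2) (Fin r → A)) p q k = (1 : Matrix (Fin 2) (Fin 2) A) p q := by
      rw [Matrix.one_apply, Matrix.one_apply]
      split_ifs <;> rfl
    exact h3.trans h4
  obtain ⟨s, hs⟩ := strict_nilp b (x := (χ g : Matrix (Fin n) (Fin n) A) - 1) (by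
    intro i j hij
    rw [Matrix.sub_apply]
    rcases Nat.lt_or_ge (b j) (b i) with h | h
    · rw [htri' g i j h, Matrix.one_apply_ne (by
        rintro rfl
        omega), sub_zero]
    · rw [DB_inj he (b i) (h1 ⟨b i, hr i⟩) i j rfl (le_antisymm hij h), sub_self])
  have hM : ((N : ℕ) : Matrix (Fin n) (Fin n) A) = 0 := by
    have := congrArg (algebraMap A (Matrix (Fin n) (Fin n) A)) hA
    rw [map_natCast, map_zero] at this
    exact this
  obtain ⟨m, hm, hm'⟩ := unip hN hM s _ hs
  rw [add_sub_cancel] at hm'
  refine ⟨m, hm, Units.ext ?_⟩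
  rw [Units.val_pow_eq_pow_val, hm', Units.val_one]

/-- The reduction to `2 × 2`-matrices. -/
theorem block_pair {A : Type u} [CommRing A] {N : ℕ} (hN : 0 < N) (hA : (N : A) = 0) {n : ℕ}
    (b : Fin n → ℕ) (hb : ∀ k, (Finset.univ.filter fun i => b i = k).card ≤ 2)
    {L : Type*} [Group L] {Γ : Type v} [Group Γ] (χ : Γ →* GL (Fin n) A × L)
    (htri : ∀ g, ((χ g).1 : Matrix (Fin n) (Fin n) A).BlockTriangular b)
    (htf : TorsionFree χ.range) :
    ∃ (r : ℕ) (χ' : Γ →* GL (Fin 2) (Fin r → A) × L), χ'.ker = χ.ker ∧ TorsionFree χ'.range := by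
  obtain ⟨r, φ, hφ', hφ⟩ := exists_diag hN hA b hb ((MonoidHom.fst _ _).comp χ) htri
  have key : ∀ g (m : ℕ), 0 < m → χ g ^ m = 1 → χ g = 1 := fun g m hm h =>
    congrArg Subtype.val (htf ⟨χ g, g, rfl⟩ m hm (Subtype.ext h))
  let χ' : Γ →* GL (Fin 2) (Fin r → A) × L := φ.prod ((MonoidHom.snd _ _).comp χ)
  have hker : χ'.ker = χ.ker := by
    ext g
    rw [MonoidHom.mem_ker, MonoidHom.mem_ker]
    constructor
    · intro h
      have h1 : φ g = 1 := congrArg Prod.fst h
      have h2 : (χ g).2 = 1 := congrArg Prod.snd h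
      obtain ⟨m, hm, h3⟩ := hφ g h1
      refine key g m hm (Prod.ext h3 ?_)
      rw [Prod.pow_snd, h2, one_pow, Prod.snd_one]
    · intro h
      have h0 : (χ g).1 = 1 := congrArg Prod.fst h
      have h1 : (χ g).2 = 1 := congrArg Prod.snd h
      exact Prod.ext (hφ' g h0) h1
  refine ⟨r, χ', hker, ?_⟩
  rintro ⟨_, g, rfl⟩ m hm h
  have h1 : χ' g ^ m = 1 := congrArg Subtype.val h
  rw [← map_pow] at h1
  have h2 : g ^ m ∈ χ.ker := hker ▸ MonoidHom.mem_ker.2 h1
  have h3 : χ g ^ m = 1 := by rw [← map_pow]; exact MonoidHom.mem_ker.1 h2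
  have h4 : g ∈ χ'.ker := hker ▸ MonoidHom.mem_ker.2 (key g m hm h3)
  exact Subtype.ext (MonoidHom.mem_ker.1 h4)

end Pool.Agent.NegK.NT.H80
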