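import Pool.Agent.Lib.MP_28303a_al.NT.Sys

/-! # The triangulated category of perfect complexes of located free modules -/

set_option autoImplicit false
set_option linter.unusedSectionVars false
set_option linter.unusedVariables false

namespace Pool.Agent.NegK.NT

universe u

open CategoryTheory Limits ZeroObject Pretriangulated

/-! ### Triangulated categories -/

section tri

variable {C : Type*} [Category C] [Preadditive C] [HasZeroObject C] [HasShift C ℤ]
  [∀ n : ℤ, (shiftFunctor C n).Additive] [Pretriangulated C]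

theorem cone_iso80 {X Y Z X' Y' Z' : C} {f : X ⟶ Y} {g : Y ⟶ Z} {w : Z ⟶ X⟦(1 : ℤ)⟧}
    (hT : Triangle.mk f g w ∈ distTriang C) {f' : X' ⟶ Y'} {g' : Y' ⟶ Z'} {w' : Z' ⟶ X'⟦(1 : ℤ)⟧}
    (hT' : Triangle.mk f' g' w' ∈ distTriang C) (a : X ⟶ X') (b : Y ⟶ Y') [IsIso a] [IsIso b]
    (h : f ≫ b = a ≫ f') : Nonempty (Z ≅ Z') := by
  let ea : X ≅ X' := asIso a
  let eb : Y ≅ Y' := asIso b
  have e : Arrow.mk f ≅ Arrow.mk f' := Arrow.isoMk ea eb h.symm
  obtain ⟨e, -, -⟩ := exists_iso_of_arrow_iso (Triangle.mk f g w) (Triangle.mk f' g' w') hT hT' e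
  exact ⟨Triangle.π₃.mapIso e⟩

/-- The retracts of the objects of a triangulated subcategory form a triangulated
subcategory. -/
theorem retractClosure_isTriangulated80 (P : ObjectProperty C) [P.IsTriangulated] :
    P.retractClosure.IsTriangulated where
  exists_zero := ⟨0, isZero_zero C, by
    obtain ⟨Z, hZ, h⟩ := ‹P.IsTriangulated›.toContainsZero.exists_zero
    exact ⟨Z, h, ⟨(hZ.iso (isZero_zero C)).symm.retract⟩⟩⟩
  isStableUnderShiftBy n := ⟨by
    rintro X ⟨Y, hY, ⟨r⟩⟩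
    exact ⟨Y⟦n⟧, P.le_shift n _ hY, ⟨r.map (shiftFunctor C n)⟩⟩⟩
  ext₂' T hT h₁ h₃ := by
    have h := ObjectProperty.extensionProduct_retractClosure_retractClosure_le P P T.obj₂
      ⟨T.obj₁, T.obj₃, T.mor₁, T.mor₂, T.mor₃, hT, h₁, h₃⟩
    refine ObjectProperty.le_isoClosure _ _ ?_
    obtain ⟨Y, hY, ⟨r⟩⟩ := h
    obtain ⟨Z, hZ, ⟨e⟩⟩ := ObjectProperty.extensionProduct_le_of_isTriangulatedClosed₂' (Q := P)
      le_rfl le_rfl Y hY
    exact ⟨Z, hZ, ⟨r.trans e.retract⟩⟩

end tri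

/-! ### Transport of complexes -/

section trc

variable {C : Type*} [Category C] [HasZeroMorphisms C]

/-- The complex transported along isomorphisms of its terms. -/
def trc (M : CochainComplex C ℤ) (A : ℤ → C) (e : ∀ n, M.X n ≅ A n) : CochainComplex C ℤ where
  X := A
  d i j := (e i).inv ≫ M.d i j ≫ (e j).hom
  shape i j h := by rw [M.shape i j h, zero_comp, comp_zero]
  d_comp_d' i j k _ _ := by
    simp only [Category.assoc, Iso.hom_inv_id_assoc, HomologicalComplex.d_comp_d_assoc, zero_comp,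
      comp_zero]

/-- The isomorphism with the transported complex. -/
def trcIso (M : CochainComplex C ℤ) (A : ℤ → C) (e : ∀ n, M.X n ≅ A n) : M ≅ trc M A e :=
  HomologicalComplex.Hom.isoOfComponents e (by
    intro i j _
    simp only [trc, Iso.hom_inv_id_assoc])

end trc

section

variable {k : Type u} [Ring k] {Γ : Type u} [Group Γ] {B : Type u} [MulAction Γ B] {P : Pre Γ B}

/-- The sum is a biproduct. -/
noncomputable def smIso (A A' : Loc k P) : A ⊞ A' ≅ Loc.sm A A' :=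
  (biprod.uniqueUpToIso A A' (isBinaryBilimitOfTotal (Loc.bic A A') (Loc.sm_total A A'))).symm

/-- The terms of the cone. -/
noncomputable def coneX {E E' : CochainComplex (Loc k P) ℤ} (f : E ⟶ E') (n : ℤ) :
    (CochainComplex.mappingCone f).X n ≅ Loc.sm (E.X (n + 1)) (E'.X n) :=
  HomologicalComplex.homotopyCofiber.XIsoBiprod f n (n + 1) rfl ≪≫ smIso _ _

/-- The cone, as a complex of located free modules with the sums of the bases. -/
noncomputable def fcone {E E' : CochainComplex (Loc k P) ℤ} (f : E ⟶ E') :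
    CochainComplex (Loc k P) ℤ :=
  trc (CochainComplex.mappingCone f) (fun n => Loc.sm (E.X (n + 1)) (E'.X n)) (coneX f)

/-- The isomorphism with the cone. -/
noncomputable def fconeIso {E E' : CochainComplex (Loc k P) ℤ} (f : E ⟶ E') :
    CochainComplex.mappingCone f ≅ fcone f := trcIso _ _ _

theorem finC_fcone {E E' : CochainComplex (Loc k P) ℤ} (f : E ⟶ E') (h : FinC E) (h' : FinC E') :
    FinC (fcone f) := by
  obtain ⟨a, b, hab⟩ := h.bdd
  obtain ⟨a', b', hab'⟩ := h'.bdd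
  refine ⟨fun n => ?_, min (a - 1) a', max b b', fun n hn => ?_⟩
  · have := h.fin (n + 1)
    have := h'.fin n
    change Finite ((E.X (n + 1)).ι ⊕ (E'.X n).ι)
    infer_instance
  · have h1 : IsEmpty (E.X (n + 1)).ι := hab (n + 1) (by omega)
    have h2 : IsEmpty (E'.X n).ι := hab' n (by omega)
    change IsEmpty ((E.X (n + 1)).ι ⊕ (E'.X n).ι)
    infer_instance

theorem finC_shift {E : CochainComplex (Loc k P) ℤ} (h : FinC E) (n : ℤ) : FinC (E⟦n⟧) := by
  obtain ⟨a, b, hab⟩ := h.bdd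
  refine ⟨fun m => h.fin (m + n), a - n, b - n, fun m hm => hab (m + n) (by omega)⟩

variable (k P) in
/-- The objects which are isomorphic to finite complexes. -/
def FnC : ObjectProperty (KK k P) := fun X => ∃ E : CochainComplex (Loc k P) ℤ, FinC E ∧
  Nonempty (X ≅ qo E)

theorem fn_qo {E : CochainComplex (Loc k P) ℤ} (h : FinC E) : FnC k P (qo E) :=
  ⟨E, h, ⟨Iso.refl _⟩⟩

theorem fn_iso {X Y : KK k P} (e : X ≅ Y) (h : FnC k P X) : FnC k P Y := by
  obtain ⟨E, hE, ⟨e'⟩⟩ := h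
  exact ⟨E, hE, ⟨e.symm ≪≫ e'⟩⟩

instance : (FnC k P).IsClosedUnderIsomorphisms := ⟨fun e h => fn_iso e h⟩

theorem fn_shift {X : KK k P} (h : FnC k P X) (n : ℤ) : FnC k P (X⟦n⟧) := by
  obtain ⟨E, hE, ⟨e⟩⟩ := h
  exact ⟨E⟦n⟧, finC_shift hE n, ⟨(shiftFunctor (KK k P) n).mapIso e ≪≫
    ((HomotopyCategory.quotient (Loc k P) (ComplexShape.up ℤ)).commShiftIso n).symm.app E⟩⟩

/-- The cone triangle of a morphism of finite complexes. -/
theorem fcone_triangle {E E' : CochainComplex (Loc k P) ℤ} (f : E ⟶ E') :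
    ∃ (g : qo E' ⟶ qo (fcone f)) (w : qo (fcone f) ⟶ (qo E)⟦(1 : ℤ)⟧),
      Triangle.mk ((HomotopyCategory.quotient (Loc k P) (ComplexShape.up ℤ)).map f) g w ∈
        distTriang (KK k P) := by
  let T := CochainComplex.mappingCone.triangleh f
  let e : T.obj₃ ≅ qo (fcone f) :=
    (HomotopyCategory.quotient (Loc k P) (ComplexShape.up ℤ)).mapIso (fconeIso f)
  refine ⟨T.mor₂ ≫ e.hom, e.inv ≫ T.mor₃, ?_⟩
  refine isomorphic_distinguished T (HomotopyCategory.mappingCone_triangleh_distinguished f) _ ?_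
  refine Triangle.isoMk _ _ (Iso.refl _) (Iso.refl _) e.symm ?_ ?_ ?_
  · change T.mor₁ ≫ 𝟙 _ = 𝟙 _ ≫ T.mor₁
    rw [Category.comp_id, Category.id_comp]
  · change (T.mor₂ ≫ e.hom) ≫ e.inv = 𝟙 _ ≫ T.mor₂
    rw [Category.assoc, e.hom_inv_id, Category.comp_id, Category.id_comp]
  · change (e.inv ≫ T.mor₃) ≫ (shiftFunctor (KK k P) (1 : ℤ)).map (𝟙 _) = e.inv ≫ T.mor₃
    rw [CategoryTheory.Functor.map_id, Category.comp_id]

/-- The third object of a triangle on finite objects is finite. -/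
theorem fn_cone {X Y Z : KK k P} {f : X ⟶ Y} {g : Y ⟶ Z} {w : Z ⟶ X⟦(1 : ℤ)⟧}
    (hT : Triangle.mk f g w ∈ distTriang (KK k P)) (hX : FnC k P X) (hY : FnC k P Y) :
    FnC k P Z := by
  obtain ⟨E, hE, ⟨e⟩⟩ := hX
  obtain ⟨E', hE', ⟨e'⟩⟩ := hY
  obtain ⟨φ, hφ⟩ := (HomotopyCategory.quotient (Loc k P) (ComplexShape.up ℤ)).map_surjective
    (e.inv ≫ f ≫ e'.hom)
  obtain ⟨g', w', hT'⟩ := fcone_triangle φ
  obtain ⟨i⟩ := cone_iso80 hT hT' e.hom e'.hom (by
    rw [hφ, Iso.hom_inv_id_assoc])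
  exact ⟨fcone φ, finC_fcone φ hE hE', ⟨i⟩⟩

instance : (FnC k P).IsTriangulatedClosed₃ where
  ext₃' T hT h₁ h₂ := ObjectProperty.le_isoClosure _ _ (fn_cone (f := T.mor₁) (g := T.mor₂)
    (w := T.mor₃) hT h₁ h₂)

instance : (FnC k P).IsStableUnderShift ℤ where
  isStableUnderShiftBy n := ⟨fun X hX => fn_shift hX n⟩

theorem fn_zero : ∃ E : CochainComplex (Loc k P) ℤ, FinC E ∧ IsZero E := by
  refine ⟨{ X := fun _ => ⟨PEmpty, isEmptyElim⟩, d := fun _ _ => 0 }, ?_, ?_⟩
  · exact ⟨fun _ => by change Finite PEmpty; infer_instance, 0, 0, fun _ _ => by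
      change IsEmpty PEmpty; infer_instance⟩
  · rw [IsZero.iff_id_eq_zero]
    refine HomologicalComplex.hom_ext _ _ fun n => ?_
    have : IsEmpty (⟨PEmpty, isEmptyElim⟩ : Loc k P).ι := by change IsEmpty PEmpty; infer_instance
    exact (Loc.isZero_of_isEmpty _).eq_of_src _ _

instance : (FnC k P).ContainsZero where
  exists_zero := by
    obtain ⟨E, hE, h⟩ := fn_zero (k := k) (P := P)
    exact ⟨qo E, (HomotopyCategory.quotient (Loc k P) (ComplexShape.up ℤ)).map_isZero h, fn_qo hE⟩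

instance : (FnC k P).IsTriangulated where
  toIsTriangulatedClosed₂ := ObjectProperty.IsTriangulatedClosed₂.of_isTriangulatedClosed₃

/-! ### Perfect objects -/

theorem per_iff (X : KK k P) : Per X ↔ (FnC k P).retractClosure X := by
  constructor
  · rintro ⟨E, hE, h⟩
    exact ⟨qo E, fn_qo hE, h⟩
  · rintro ⟨Y, ⟨E, hE, ⟨e⟩⟩, ⟨r⟩⟩
    exact ⟨E, hE, ⟨r.trans (Retract.ofIso e)⟩⟩

theorem per_qo {E : CochainComplex (Loc k P) ℤ} (h : FinC E) : Per (qo E) :=
  ⟨E, h, ⟨Retract.refl _⟩⟩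

/-- Retracts of perfect objects are perfect. -/
theorem per_ret {X Y : KK k P} (r : Retract X Y) (h : Per Y) : Per X := by
  obtain ⟨E, hE, ⟨r'⟩⟩ := h
  exact ⟨E, hE, ⟨r.trans r'⟩⟩

theorem per_iso {X Y : KK k P} (e : X ≅ Y) (h : Per X) : Per Y := per_ret (Retract.ofIso e.symm) h

/-- The perfect objects as a property. -/
theorem per_eq : (fun X : KK k P => Per X) = (FnC k P).retractClosure :=
  funext fun X => propext (per_iff X)

theorem per_tri : ((FnC k P).retractClosure).IsTriangulated := retractClosure_isTriangulated80 _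

theorem per_shift {X : KK k P} (h : Per X) (n : ℤ) : Per (X⟦n⟧) := by
  have := per_tri (k := k) (P := P)
  exact (per_iff _).2 ((FnC k P).retractClosure.le_shift n _ ((per_iff _).1 h))

theorem per_zero {X : KK k P} (h : IsZero X) : Per X := by
  obtain ⟨E, hE, h'⟩ := fn_zero (k := k) (P := P)
  exact per_iso (((HomotopyCategory.quotient (Loc k P) (ComplexShape.up ℤ)).map_isZero h').iso h)
    (per_qo hE)

theorem per2 {X Y Z : KK k P} {f : X ⟶ Y} {g : Y ⟶ Z} {w : Z ⟶ X⟦(1 : ℤ)⟧}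
    (hT : Triangle.mk f g w ∈ distTriang (KK k P)) (hX : Per X) (hZ : Per Z) : Per Y := by
  have := per_tri (k := k) (P := P)
  exact (per_iff _).2 ((FnC k P).retractClosure.ext_of_isTriangulatedClosed₂ _ hT
    ((per_iff _).1 hX) ((per_iff _).1 hZ))

theorem per1 {X Y Z : KK k P} {f : X ⟶ Y} {g : Y ⟶ Z} {w : Z ⟶ X⟦(1 : ℤ)⟧}
    (hT : Triangle.mk f g w ∈ distTriang (KK k P)) (hY : Per Y) (hZ : Per Z) : Per X := by
  have := per_tri (k := k) (P := P)
  exact (per_iff _).2 ((FnC k P).retractClosure.ext_of_isTriangulatedClosed₁ _ hT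
    ((per_iff _).1 hY) ((per_iff _).1 hZ))

theorem per3 {X Y Z : KK k P} {f : X ⟶ Y} {g : Y ⟶ Z} {w : Z ⟶ X⟦(1 : ℤ)⟧}
    (hT : Triangle.mk f g w ∈ distTriang (KK k P)) (hX : Per X) (hY : Per Y) : Per Z := by
  have := per_tri (k := k) (P := P)
  exact (per_iff _).2 ((FnC k P).retractClosure.ext_of_isTriangulatedClosed₃ _ hT
    ((per_iff _).1 hX) ((per_iff _).1 hY))

end

/-! ### Functors -/

section

variable {k k' k'' : Type u} [Ring k] [Ring k'] [Ring k''] {Γ : Type u} [Group Γ]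
  {B B' B'' : Type u} [MulAction Γ B] [MulAction Γ B'] [MulAction Γ B''] {P : Pre Γ B}
  {Q : Pre Γ B'} {R : Pre Γ B''}

/-- The functors which preserve finite bases. -/
structure KeepFin (F : Loc k P ⥤ Loc k' Q) : Prop where
  fin : ∀ A : Loc k P, Finite A.ι → Finite (F.obj A).ι
  emp : ∀ A : Loc k P, IsEmpty A.ι → IsEmpty (F.obj A).ι

theorem keepFin_push (m : Loc.Mono P Q) : KeepFin (Loc.push (k := k) m) :=
  ⟨fun _ h => h, fun _ h => h⟩

theorem keepFin_bc (φ : k →+* k') : KeepFin (Loc.bc (P := P) φ) := ⟨fun _ h => h, fun _ h => h⟩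

theorem finC_map (F : Loc k P ⥤ Loc k' Q) [F.Additive] (hF : KeepFin F)
    {E : CochainComplex (Loc k P) ℤ} (h : FinC E) :
    FinC ((F.mapHomologicalComplex (ComplexShape.up ℤ)).obj E) := by
  obtain ⟨a, b, hab⟩ := h.bdd
  exact ⟨fun n => hF.fin _ (h.fin n), a, b, fun n hn => hF.emp _ (hab n hn)⟩

theorem per_hk (F : Loc k P ⥤ Loc k' Q) [F.Additive] (hF : KeepFin F) {X : KK k P} (h : Per X) :
    Per ((hk F).obj X) := by
  obtain ⟨E, hE, ⟨r⟩⟩ := h
  exact per_ret (r.map (hk F)) (per_iso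
    ((F.mapHomotopyCategoryFactors (ComplexShape.up ℤ)).app E).symm (per_qo (finC_map F hF hE)))

theorem per_push (m : Loc.Mono P Q) {X : KK k P} (h : Per X) : Per ((hk (Loc.push m)).obj X) :=
  per_hk _ (keepFin_push m) h

theorem per_bc (φ : k →+* k') {X : KK k P} (h : Per X) : Per ((hk (Loc.bc φ)).obj X) :=
  per_hk _ (keepFin_bc φ) h

/-- Isomorphic functors induce isomorphic functors on the homotopy categories. -/
noncomputable def hkIso {F G : Loc k P ⥤ Loc k' Q} [F.Additive] [G.Additive] (e : F ≅ G) :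
    hk F ≅ hk G where
  hom := NatTrans.mapHomotopyCategory e.hom _
  inv := NatTrans.mapHomotopyCategory e.inv _
  hom_inv_id := by
    rw [← NatTrans.mapHomotopyCategory_comp, e.hom_inv_id, NatTrans.mapHomotopyCategory_id]
  inv_hom_id := by
    rw [← NatTrans.mapHomotopyCategory_comp, e.inv_hom_id, NatTrans.mapHomotopyCategory_id]

/-- The functor of a composition. -/
noncomputable def hkComp (F : Loc k P ⥤ Loc k' Q) (G : Loc k' Q ⥤ Loc k'' R) [F.Additive]
    [G.Additive] : hk F ⋙ hk G ≅ hk (F ⋙ G) :=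
  Functor.mapHomotopyCategoryCompIso (Iso.refl (F ⋙ G)) _

/-- Commutative squares and triangles of functors. -/
noncomputable def hkSq {B₁ : Type u} [MulAction Γ B₁] {k₁ : Type u} [Ring k₁] {P₁ : Pre Γ B₁}
    (F : Loc k P ⥤ Loc k' Q) (G : Loc k' Q ⥤ Loc k'' R) (F' : Loc k P ⥤ Loc k₁ P₁)
    (G' : Loc k₁ P₁ ⥤ Loc k'' R) [F.Additive] [G.Additive] [F'.Additive] [G'.Additive]
    (e : F ⋙ G ≅ F' ⋙ G') : hk F ⋙ hk G ≅ hk F' ⋙ hk G' :=
  hkComp F G ≪≫ hkIso e ≪≫ (hkComp F' G').symm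

/-- Change of the locations and of the ring. -/
noncomputable def bcPush (φ : k →+* k') (m : Loc.Mono P Q) :
    Loc.bc (P := P) φ ⋙ Loc.push m ≅ Loc.push m ⋙ Loc.bc φ :=
  NatIso.ofComponents (fun A => Iso.refl _) (fun f => by
    refine Loc.hom_ext ?_
    rfl)

/-- Restriction and change of the locations. -/
noncomputable def resPush (m : Loc.Mono P Q) :
    Loc.res (k := k) (P := P) ⋙ Loc.push m ≅ Loc.push m ⋙ Loc.res :=
  NatIso.ofComponents (fun A => Iso.refl _) (fun f => by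
    refine Loc.hom_ext ?_
    rfl)

end

/-! ### Change of the ring -/

section

variable {k k' k'' : Type u} [Ring k] [Ring k'] [Ring k''] {Γ : Type u} [Group Γ]
  {B B' : Type u} [MulAction Γ B] [MulAction Γ B'] {P : Pre Γ B} {Q : Pre Γ B'}

/-- The image of a basis element. -/
theorem bm_single (φ : k →+* k') {A A' : Loc k P} (f : A ⟶ A') (i : A.ι) :
    Loc.lin (A := (Loc.bo A : Loc k' P)) (A' := Loc.bo A') (Loc.bm φ f) (Finsupp.single i 1) =
      Loc.mf φ A'.ι (Loc.lin f (Finsupp.single i 1)) :=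
  Loc.lin_ofB (A := (Loc.bo A : Loc k' P)) (A' := (Loc.bo A' : Loc k' P))
    (fun i => Loc.mf φ A'.ι (Loc.lin f (Finsupp.single i 1))) _ i

theorem bm_bm (φ : k →+* k') (ψ : k' →+* k'') {A A' : Loc k P} (f : A ⟶ A') :
    Loc.bm ψ (Loc.bm φ f) = Loc.bm (ψ.comp φ) f := by
  refine Loc.ext_basis fun i => ?_
  refine (bm_single ψ (Loc.bm φ f) i).trans ((?_ : _ = _).trans (bm_single (ψ.comp φ) f i).symm)
  have h : Loc.lin (A := (Loc.bo A : Loc k' P)) (A' := Loc.bo A') (Loc.bm φ f)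
    (Finsupp.single i 1) = Loc.mf φ A'.ι (Loc.lin f (Finsupp.single i 1)) := bm_single φ f i
  rw [h]
  ext j g
  rw [Loc.coeff_mf, Loc.coeff_mf, Loc.coeff_mf]
  rfl

theorem bm_id {A A' : Loc k P} (f : A ⟶ A') : Loc.bm (RingHom.id k) f = f := by
  refine Loc.ext_basis fun i => ?_
  refine (bm_single (RingHom.id k) f i).trans ?_
  ext j g
  rw [Loc.coeff_mf]
  rfl

/-- Composition of two changes of the ring. -/
noncomputable def bcComp (φ : k →+* k') (ψ : k' →+* k'') :
    Loc.bc (P := P) φ ⋙ Loc.bc ψ ≅ Loc.bc (ψ.comp φ) where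
  hom :=
    { app := fun A => 𝟙 (Loc.bo A : Loc k'' P)
      naturality := fun A A' f => by
        change Loc.bm ψ (Loc.bm φ f) ≫ 𝟙 (Loc.bo A' : Loc k'' P) =
          𝟙 (Loc.bo A : Loc k'' P) ≫ Loc.bm (ψ.comp φ) f
        rw [Category.comp_id, Category.id_comp, bm_bm] }
  inv :=
    { app := fun A => 𝟙 (Loc.bo A : Loc k'' P)
      naturality := fun A A' f => by
        change Loc.bm (ψ.comp φ) f ≫ 𝟙 (Loc.bo A' : Loc k'' P) =
          𝟙 (Loc.bo A : Loc k'' P) ≫ Loc.bm ψ (Loc.bm φ f)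
        rw [Category.comp_id, Category.id_comp, bm_bm] }
  hom_inv_id := by
    refine NatTrans.ext (funext fun A => ?_)
    exact Category.comp_id (𝟙 (Loc.bo A : Loc k'' P))
  inv_hom_id := by
    refine NatTrans.ext (funext fun A => ?_)
    exact Category.comp_id (𝟙 (Loc.bo A : Loc k'' P))

/-- The change of the ring along the identity. -/
noncomputable def bcId (φ : k →+* k) (hφ : φ = RingHom.id k) :
    Loc.bc (P := P) φ ≅ 𝟭 (Loc k P) where
  hom :=
    { app := fun A => 𝟙 A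
      naturality := fun A A' f => by
        subst hφ
        change Loc.bm (RingHom.id k) f ≫ 𝟙 A' = 𝟙 A ≫ f
        rw [Category.comp_id, Category.id_comp, bm_id] }
  inv :=
    { app := fun A => 𝟙 A
      naturality := fun A A' f => by
        subst hφ
        change f ≫ 𝟙 A' = 𝟙 A ≫ Loc.bm (RingHom.id k) f
        rw [Category.comp_id, Category.id_comp, bm_id] }
  hom_inv_id := by
    refine NatTrans.ext (funext fun A => ?_)
    exact Category.comp_id (𝟙 A)
  inv_hom_id := by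
    refine NatTrans.ext (funext fun A => ?_)
    exact Category.comp_id (𝟙 A)

theorem hkId_aux {X Y : KK k P} (f : X ⟶ Y) : (hk (𝟭 (Loc k P))).map f = f := by
  obtain ⟨f, rfl⟩ := (HomotopyCategory.quotient (Loc k P) (ComplexShape.up ℤ)).map_surjective f
  rfl

/-- The homotopy category of the identity functor. -/
noncomputable def hkId : hk (𝟭 (Loc k P)) ≅ 𝟭 (KK k P) where
  hom :=
    { app := fun X => 𝟙 X
      naturality := fun X Y f => by
        exact (congrArg (fun h : X ⟶ Y => h ≫ 𝟙 Y) (hkId_aux f)).trans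
          ((Category.comp_id f).trans (Category.id_comp f).symm) }
  inv :=
    { app := fun X => 𝟙 X
      naturality := fun X Y f => by
        exact ((Category.comp_id f).trans (Category.id_comp f).symm).trans
          (congrArg (fun h : X ⟶ Y => 𝟙 X ≫ h) (hkId_aux f)).symm }
  hom_inv_id := by
    refine NatTrans.ext (funext fun A => ?_)
    exact Category.comp_id (𝟙 A)
  inv_hom_id := by
    refine NatTrans.ext (funext fun A => ?_)
    exact Category.comp_id (𝟙 A)

variable (k P) in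
/-- Extension and evaluation. -/
noncomputable def extEv0 : ext k P ⋙ ev0 k P ≅ 𝟭 (KK k P) :=
  hkComp _ _ ≪≫ hkIso (bcComp Polynomial.C Polynomial.constantCoeff ≪≫
    bcId (Polynomial.constantCoeff.comp Polynomial.C) (RingHom.ext fun x => by
      rw [RingHom.comp_apply, Polynomial.constantCoeff_apply, Polynomial.coeff_C_zero,
        RingHom.id_apply])) ≪≫ hkId

/-- Central elements and changes of the locations. -/
theorem push_zz80 (m : Loc.Mono P Q) (z : k) (hz : ∀ x, z * x = x * z) (X : KK k P) :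
    (hk (Loc.push m)).map ((zz z hz).app X) = (zz z hz).app ((hk (Loc.push m)).obj X) := rfl

theorem bm_cen (φ : k →+* k') (z : k) (hz : ∀ x, z * x = x * z) (hz' : ∀ x, φ z * x = x * φ z)
    (A : Loc k P) : Loc.bm φ ((Loc.cen z hz).app A) = (Loc.cen (φ z) hz').app (Loc.bo A) := by
  refine Loc.ext_basis (A := (Loc.bo A : Loc k' P)) (A' := Loc.bo A) fun i => ?_
  refine (bm_single φ ((Loc.cen z hz).app A) i).trans ?_
  have h1 : Loc.lin (A := A) (A' := A) ((Loc.cen z hz).app A) (Finsupp.single i 1) =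
    MonoidAlgebra.single (1 : Γ) z • Finsupp.single i 1 := Loc.lin_cen z hz A _
  have h2 : Loc.lin (A := (Loc.bo A : Loc k' P)) (A' := Loc.bo A)
    ((Loc.cen (φ z) hz').app (Loc.bo A)) (Finsupp.single i 1) =
    MonoidAlgebra.single (1 : Γ) (φ z) • Finsupp.single i 1 := Loc.lin_cen (φ z) hz' _ _
  refine Eq.trans ?_ h2.symm
  refine (congrArg (Loc.mf φ A.ι) h1).trans ?_
  rw [Loc.mf_smul, Loc.mf_single, map_one, MonoidAlgebra.mapRingHom_single]

theorem bcC_cenC (φ : k →+* k') (z : k) (hz : ∀ x, z * x = x * z)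
    (hz' : ∀ x, φ z * x = x * φ z) (E : CochainComplex (Loc k P) ℤ) :
    ((Loc.bc φ).mapHomologicalComplex (ComplexShape.up ℤ)).map (cenC z hz E) =
      cenC (φ z) hz' (((Loc.bc φ).mapHomologicalComplex (ComplexShape.up ℤ)).obj E) :=
  HomologicalComplex.hom_ext _ _ fun n => bm_cen φ z hz hz' (E.X n)

theorem bc_zz80 (φ : k →+* k') (z : k) (hz : ∀ x, z * x = x * z) (hz' : ∀ x, φ z * x = x * φ z)
    (X : KK k P) :
    (hk (Loc.bc φ)).map ((zz z hz).app X) = (zz (φ z) hz').app ((hk (Loc.bc φ)).obj X) :=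
  congrArg (fun f => (HomotopyCategory.quotient (Loc k' P) (ComplexShape.up ℤ)).map f)
    (bcC_cenC φ z hz hz' X.as)

/-- Central elements and changes of the ring. -/
theorem bc_zz' (φ : k →+* k') (z : k) (w : k') (h : φ z = w) (hz : ∀ x, z * x = x * z)
    (hw : ∀ x, w * x = x * w) (X : KK k P) :
    (hk (Loc.bc φ)).map ((zz z hz).app X) = (zz w hw).app ((hk (Loc.bc φ)).obj X) := by
  subst h
  exact bc_zz80 φ z hz hw X

theorem zz_congr {z w : k} (h : z = w) (hz : ∀ x, z * x = x * z) (hw : ∀ x, w * x = x * w)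
    (X : KK k P) : (zz z hz).app X = (zz w hw).app X := by
  subst h
  rfl

theorem loc_tt80 (X : KK (Polynomial k) P) :
    (loc k P).map (tt.app X) = (tn 1).app ((loc k P).obj X) := by
  have h := bc_zz' (P := P) (Polynomial.toLaurent : Polynomial k →+* LaurentPolynomial k)
    Polynomial.X (LaurentPolynomial.T 1) Polynomial.toLaurent_X xcen (tcen 1) X
  exact h

/-- Multiplication by `t ^ n` and localization. -/
theorem loc_ttp (n : ℕ) (h : ∀ x : Polynomial k, Polynomial.X ^ n * x = x * Polynomial.X ^ n)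
    (X : KK (Polynomial k) P) :
    (loc k P).map ((zz (Polynomial.X ^ n) h).app X) = (tn (n : ℤ)).app ((loc k P).obj X) := by
  have h := bc_zz' (P := P) (Polynomial.toLaurent : Polynomial k →+* LaurentPolynomial k)
    (Polynomial.X ^ n) (LaurentPolynomial.T n) (Polynomial.toLaurent_X_pow n) h (tcen n) X
  exact h

/-- Evaluation at `t = 0` kills the multiplication by `t`. -/
theorem ev0_tt (X : KK (Polynomial k) P) : (ev0 k P).map (tt.app X) = 0 := by
  have h0 : ∀ x : k, (0 : k) * x = x * 0 := fun x => by rw [zero_mul, mul_zero]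
  have h := bc_zz' (P := P) (Polynomial.constantCoeff : Polynomial k →+* k)
    Polynomial.X 0 (by rw [Polynomial.constantCoeff_apply, Polynomial.coeff_X_zero]) xcen h0 X
  refine h.trans ?_
  have h1 : cenC 0 h0 (((Loc.bc Polynomial.constantCoeff).mapHomologicalComplex
      (ComplexShape.up ℤ)).obj X.as) = 0 := by
    refine HomologicalComplex.hom_ext _ _ fun n => Loc.hom_ext (LinearMap.ext fun x => ?_)
    refine (Loc.lin_cen 0 h0 _ x).trans ?_
    rw [MonoidAlgebra.single_zero, zero_smul]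
    rfl
  exact (congrArg (fun f => (HomotopyCategory.quotient (Loc k P) (ComplexShape.up ℤ)).map f)
    h1).trans (Functor.map_zero _ _ _)

/-- Products of central elements. -/
theorem zz_mul80 (z w : k) (hz : ∀ x, z * x = x * z) (hw : ∀ x, w * x = x * w)
    (hzw : ∀ x, z * w * x = x * (z * w)) (X : KK k P) :
    (zz z hz).app X ≫ (zz w hw).app X = (zz (z * w) hzw).app X := by
  have h1 : cenC z hz X.as ≫ cenC w hw X.as = cenC (z * w) hzw X.as := by
    refine HomologicalComplex.hom_ext _ _ fun n => Loc.hom_ext (LinearMap.ext fun x => ?_)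
    change MonoidAlgebra.single (1 : Γ) w • (MonoidAlgebra.single (1 : Γ) z • x) =
      MonoidAlgebra.single (1 : Γ) (z * w) • x
    rw [smul_smul, MonoidAlgebra.single_mul_single, one_mul, hw z]
  exact ((HomotopyCategory.quotient (Loc k P) (ComplexShape.up ℤ)).map_comp _ _).symm.trans
    (congrArg (fun f => (HomotopyCategory.quotient (Loc k P) (ComplexShape.up ℤ)).map f) h1)

theorem zz_one80 (h1 : ∀ x : k, 1 * x = x * 1) (X : KK k P) : (zz 1 h1).app X = 𝟙 X := by
  have h2 : cenC 1 h1 X.as = 𝟙 X.as := by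
    refine HomologicalComplex.hom_ext _ _ fun n => Loc.hom_ext (LinearMap.ext fun x => ?_)
    change MonoidAlgebra.single (1 : Γ) (1 : k) • x = x
    rw [← MonoidAlgebra.one_def, one_smul]
  exact (congrArg (fun f => (HomotopyCategory.quotient (Loc k P) (ComplexShape.up ℤ)).map f)
    h2).trans ((HomotopyCategory.quotient (Loc k P) (ComplexShape.up ℤ)).map_id _)

theorem tn_add (m n : ℤ) (X : KK (LaurentPolynomial k) P) :
    (tn m).app X ≫ (tn n).app X = (tn (m + n)).app X := by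
  have h : ∀ x : LaurentPolynomial k, LaurentPolynomial.T m * LaurentPolynomial.T n * x =
      x * (LaurentPolynomial.T m * LaurentPolynomial.T n) := fun x => by
    rw [← LaurentPolynomial.T_add]
    exact tcen _ x
  refine (zz_mul80 (LaurentPolynomial.T m) (LaurentPolynomial.T n) (tcen m) (tcen n) h X).trans ?_
  exact zz_congr (LaurentPolynomial.T_add m n).symm h (tcen (m + n)) X

theorem tn_zero (X : KK (LaurentPolynomial k) P) : (tn 0).app X = 𝟙 X := by
  have h : ∀ x : LaurentPolynomial k, 1 * x = x * 1 := fun x => by rw [one_mul, mul_one]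
  refine (zz_congr LaurentPolynomial.T_zero (tcen 0) h X).trans (zz_one80 h X)

theorem tn_iso (n : ℤ) (X : KK (LaurentPolynomial k) P) : IsIso ((tn n).app X) := by
  refine ⟨(tn (-n)).app X, ?_, ?_⟩
  · have h := tn_add n (-n) X
    rw [add_neg_cancel] at h
    exact h.trans (tn_zero X)
  · have h := tn_add (-n) n X
    rw [neg_add_cancel] at h
    exact h.trans (tn_zero X)

/-- Powers of `t`. -/
theorem ttp_add (m n : ℕ) (hm : ∀ x : Polynomial k, Polynomial.X ^ m * x = x * Polynomial.X ^ m)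
    (hn : ∀ x : Polynomial k, Polynomial.X ^ n * x = x * Polynomial.X ^ n)
    (hmn : ∀ x : Polynomial k, Polynomial.X ^ (m + n) * x = x * Polynomial.X ^ (m + n))
    (X : KK (Polynomial k) P) :
    (zz (Polynomial.X ^ m) hm).app X ≫ (zz (Polynomial.X ^ n) hn).app X =
      (zz (Polynomial.X ^ (m + n)) hmn).app X := by
  have h : ∀ x : Polynomial k, Polynomial.X ^ m * Polynomial.X ^ n * x =
      x * (Polynomial.X ^ m * Polynomial.X ^ n) := fun x => by
    rw [← pow_add]
    exact hmn x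
  exact (zz_mul80 _ _ hm hn h X).trans (zz_congr (pow_add _ _ _).symm h hmn X)

end

/-! ### Zero objects and exact functors -/

section

variable {C D : Type*} [Category C] [Preadditive C] [HasZeroObject C] [HasShift C ℤ]
  [∀ n : ℤ, (shiftFunctor C n).Additive] [Pretriangulated C]
  [Category D] [Preadditive D] [HasZeroObject D] [HasShift D ℤ]
  [∀ n : ℤ, (shiftFunctor D n).Additive] [Pretriangulated D]

theorem isZero_ret {X Y : C} (r : Retract X Y) (h : IsZero Y) : IsZero X := by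
  rw [IsZero.iff_id_eq_zero, ← r.retract, h.eq_of_tgt r.i 0, zero_comp]

theorem isZero_map_shift (F : C ⥤ D) [F.CommShift ℤ] [F.Additive] {X : C}
    (h : IsZero (F.obj X)) (n : ℤ) : IsZero (F.obj (X⟦n⟧)) :=
  ((shiftFunctor D n).map_isZero h).of_iso ((F.commShiftIso n).app X)

theorem isZero_map3 (F : C ⥤ D) [F.CommShift ℤ] [F.IsTriangulated] {X Y Z : C} {f : X ⟶ Y}
    {g : Y ⟶ Z} {w : Z ⟶ X⟦(1 : ℤ)⟧} (hT : Triangle.mk f g w ∈ distTriang C)
    (hX : IsZero (F.obj X)) (hY : IsZero (F.obj Y)) : IsZero (F.obj Z) :=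
  Triangle.isZero₃_of_isZero₁₂ _ (F.map_distinguished _ hT) hX hY

theorem isZero_map2 (F : C ⥤ D) [F.CommShift ℤ] [F.IsTriangulated] {X Y Z : C} {f : X ⟶ Y}
    {g : Y ⟶ Z} {w : Z ⟶ X⟦(1 : ℤ)⟧} (hT : Triangle.mk f g w ∈ distTriang C)
    (hX : IsZero (F.obj X)) (hZ : IsZero (F.obj Z)) : IsZero (F.obj Y) :=
  Triangle.isZero₂_of_isZero₁₃ _ (F.map_distinguished _ hT) hX hZ

theorem isZero_map1 (F : C ⥤ D) [F.CommShift ℤ] [F.IsTriangulated] {X Y Z : C} {f : X ⟶ Y}
    {g : Y ⟶ Z} {w : Z ⟶ X⟦(1 : ℤ)⟧} (hT : Triangle.mk f g w ∈ distTriang C)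
    (hY : IsZero (F.obj Y)) (hZ : IsZero (F.obj Z)) : IsZero (F.obj X) :=
  Triangle.isZero₁_of_isZero₂₃ _ (F.map_distinguished _ hT) hY hZ

end

/-! ### Systems -/

namespace Sys

variable {Γ : Type u} [Group Γ] (T : Sys Γ)

variable {T} {S S' S'' J : Finset (Fin T.m)} {k k' : Type u} [Ring k] [Ring k']

/-- Forgetting coordinates in two steps. -/
noncomputable def LL80 (k : Type u) [Ring k] (h : S' ⊆ S) (h' : S'' ⊆ S') :
    T.L k h ⋙ T.L k h' ≅ T.L k (h'.trans h) :=
  hkComp (Loc.push (T.fg h)) (Loc.push (T.fg h'))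

/-- Forgetting nothing. -/
noncomputable def Lrefl (k : Type u) [Ring k] (h : S ⊆ S) : T.L k h ≅ 𝟭 (KK k (T.P S)) :=
  hkIso (Iso.refl _) ≪≫ hkId

/-- Change of the ring and forgetting coordinates. -/
noncomputable def bcL (φ : k →+* k') (h : S' ⊆ S) :
    hk (Loc.bc φ) ⋙ T.L k' h ≅ T.L k h ⋙ hk (Loc.bc φ) :=
  hkSq _ _ _ _ (bcPush φ (T.fg h))

/-- Localization and forgetting coordinates. -/
noncomputable def locL80 (k : Type u) [Ring k] (h : S' ⊆ S) :
    loc k (T.P S) ⋙ T.L (LaurentPolynomial k) h ≅ T.L (Polynomial k) h ⋙ loc k (T.P S') :=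
  bcL _ h

/-- Extension and forgetting coordinates. -/
noncomputable def extL80 (k : Type u) [Ring k] (h : S' ⊆ S) :
    ext k (T.P S) ⋙ T.L (Polynomial k) h ≅ T.L k h ⋙ ext k (T.P S') :=
  bcL _ h

/-- Evaluation and forgetting coordinates. -/
noncomputable def ev0L (k : Type u) [Ring k] (h : S' ⊆ S) :
    ev0 k (T.P S) ⋙ T.L k h ≅ T.L (Polynomial k) h ⋙ ev0 k (T.P S') :=
  bcL _ h

/-- Restriction and forgetting coordinates. -/
noncomputable def rstL80 (k : Type u) [Ring k] (h : S' ⊆ S) :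
    rst k (T.P S) ⋙ T.L k h ≅ T.L (Polynomial k) h ⋙ rst k (T.P S') :=
  hkSq _ _ _ _ (resPush (T.fg h))

theorem L_zz (h : S' ⊆ S) (z : k) (hz : ∀ x, z * x = x * z) (X : KK k (T.P S)) :
    (T.L k h).map ((zz z hz).app X) = (zz z hz).app ((T.L k h).obj X) := rfl

theorem per_L (h : S' ⊆ S) {X : KK k (T.P S)} (hX : Per X) : Per ((T.L k h).obj X) :=
  per_push _ hX

theorem pj_iso {X Y : KK k (T.P S)} (e : X ≅ Y) (h : T.PJ S J k X) : T.PJ S J k Y :=
  ⟨per_iso e h.per, fun j hj => (h.ac j hj).of_iso ((T.L k (S.erase_subset j)).mapIso e.symm)⟩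

theorem pj_ret {X Y : KK k (T.P S)} (r : Retract X Y) (h : T.PJ S J k Y) : T.PJ S J k X :=
  ⟨per_ret r h.per, fun j hj => isZero_ret (r.map (T.L k (S.erase_subset j))) (h.ac j hj)⟩

theorem pj_zero {X : KK k (T.P S)} (h : IsZero X) : T.PJ S J k X :=
  ⟨per_zero h, fun j _ => (T.L k (S.erase_subset j)).map_isZero h⟩

theorem pj_shift {X : KK k (T.P S)} (h : T.PJ S J k X) (n : ℤ) : T.PJ S J k (X⟦n⟧) :=
  ⟨per_shift h.per n, fun j hj => isZero_map_shift _ (h.ac j hj) n⟩

theorem pj1 {X Y Z : KK k (T.P S)} {f : X ⟶ Y} {g : Y ⟶ Z} {w : Z ⟶ X⟦(1 : ℤ)⟧}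
    (hT : Triangle.mk f g w ∈ distTriang (KK k (T.P S))) (hY : T.PJ S J k Y)
    (hZ : T.PJ S J k Z) : T.PJ S J k X :=
  ⟨per1 hT hY.per hZ.per, fun j hj => isZero_map1 _ hT (hY.ac j hj) (hZ.ac j hj)⟩

theorem pj2 {X Y Z : KK k (T.P S)} {f : X ⟶ Y} {g : Y ⟶ Z} {w : Z ⟶ X⟦(1 : ℤ)⟧}
    (hT : Triangle.mk f g w ∈ distTriang (KK k (T.P S))) (hX : T.PJ S J k X)
    (hZ : T.PJ S J k Z) : T.PJ S J k Y :=
  ⟨per2 hT hX.per hZ.per, fun j hj => isZero_map2 _ hT (hX.ac j hj) (hZ.ac j hj)⟩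

theorem pj3 {X Y Z : KK k (T.P S)} {f : X ⟶ Y} {g : Y ⟶ Z} {w : Z ⟶ X⟦(1 : ℤ)⟧}
    (hT : Triangle.mk f g w ∈ distTriang (KK k (T.P S))) (hX : T.PJ S J k X)
    (hY : T.PJ S J k Y) : T.PJ S J k Z :=
  ⟨per3 hT hX.per hY.per, fun j hj => isZero_map3 _ hT (hX.ac j hj) (hY.ac j hj)⟩

theorem pj_mono {J' : Finset (Fin T.m)} (hJ : J' ⊆ J) {X : KK k (T.P S)} (h : T.PJ S J k X) :
    T.PJ S J' k X := ⟨h.per, fun j hj => h.ac j (hJ hj)⟩

/-- Forgetting coordinates preserves the classes. -/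
theorem pj_L (h : S' ⊆ S) {X : KK k (T.P S)} (hX : T.PJ S J k X) :
    T.PJ S' J k ((T.L k h).obj X) := by
  refine ⟨per_L h hX.per, fun j hj => ?_⟩
  have h1 : S'.erase j ⊆ S.erase j := Finset.erase_subset_erase j h
  have h2 := (T.L k h1).map_isZero (hX.ac j hj)
  exact (h2.of_iso ((LL80 k h (S'.erase_subset j)).app X)).of_iso (Iso.refl _)

/-- The changes of the ring preserve the classes. -/
theorem pj_bc (φ : k →+* k') {X : KK k (T.P S)} (hX : T.PJ S J k X) :
    T.PJ S J k' ((hk (Loc.bc φ)).obj X) :=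
  ⟨per_bc φ hX.per, fun j hj => ((hk (Loc.bc φ)).map_isZero (hX.ac j hj)).of_iso
    ((bcL φ (S.erase_subset j)).app X)⟩

theorem pj_loc {X : KK (Polynomial k) (T.P S)} (hX : T.PJ S J (Polynomial k) X) :
    T.PJ S J (LaurentPolynomial k) ((loc k (T.P S)).obj X) := pj_bc _ hX

theorem pj_ext {X : KK k (T.P S)} (hX : T.PJ S J k X) :
    T.PJ S J (Polynomial k) ((ext k (T.P S)).obj X) := pj_bc _ hX

theorem pj_ev0 {X : KK (Polynomial k) (T.P S)} (hX : T.PJ S J (Polynomial k) X) :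
    T.PJ S J k ((ev0 k (T.P S)).obj X) := pj_bc _ hX

/-- Restriction preserves the acyclicity. -/
theorem ac_rst {X : KK (Polynomial k) (T.P S)} (hX : T.PJ S J (Polynomial k) X) :
    ∀ j ∈ J, IsZero ((T.L k (S.erase_subset j)).obj ((rst k (T.P S)).obj X)) := fun j hj =>
  ((rst k (T.P (S.erase j))).map_isZero (hX.ac j hj)).of_iso ((rstL80 k (S.erase_subset j)).app X)

theorem pj_rst {X : KK (Polynomial k) (T.P S)} (hX : T.PJ S J (Polynomial k) X)
    (h : Per ((rst k (T.P S)).obj X)) : T.PJ S J k ((rst k (T.P S)).obj X) :=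
  ⟨h, ac_rst hX⟩

end Sys

end Pool.Agent.NegK.NT
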