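import Pool.Agent.Lib.MP_28303a_al.NT5.Cor

/-! # Groups of matrices with integral traces such that the traces of the commutators are `2`

Let `K` be a field of characteristic `0`.  A finitely generated torsionfree group of matrices in
`GL₂(K)` with integral traces and determinants such that the elements of its commutator subgroup have
trace `2` is polycyclic; so its group rings over regular rings are regular. -/

set_option autoImplicit false
set_option linter.unusedSectionVars false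
set_option linter.unusedVariables false

namespace Pool.Agent.NegK.NT.H80

universe u v

open Matrix
open Pool.Agent.NegK.TW
open Pool.Agent.NegK.TT
open Pool.Agent.NegK.NT
open NT5 (inN_zn' exists_zn)
open scoped commutatorElement

/-- A homomorphism to a commutative group with a finitely generated source: up to elements of finite
order it is a homomorphism to `ℤⁿ`. -/
theorem exists_theta {G : Type u} [Group G] [Group.FG G] {Q : Type v} [CommGroup Q] (χ : G →* Q) :
    ∃ (n : ℕ) (θ : G →* Multiplicative (Fin n → ℤ)), ∀ g, θ g = 1 →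
      ∃ m : ℕ, 0 < m ∧ χ g ^ m = 1 := by
  have hfg : Group.FG χ.range := inferInstance
  let T : Subgroup χ.range := CommGroup.torsion χ.range
  have hfg' : Group.FG (χ.range ⧸ T) := inferInstance
  have hT : ∀ x : χ.range, x ∈ T → ∃ m : ℕ, 0 < m ∧ x ^ m = 1 := fun x hx =>
    isOfFinOrder_iff_pow_eq_one.1 hx
  obtain ⟨n, θ, hθ⟩ := exists_zn (χ.range ⧸ T) (fun a b => mul_comm a b) (fun g m hm h => by
    induction g using QuotientGroup.induction_on with
    | H x =>
      rw [← QuotientGroup.mk_pow, QuotientGroup.eq_one_iff] at h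
      obtain ⟨r, hr, h1⟩ := hT _ h
      rw [QuotientGroup.eq_one_iff]
      refine isOfFinOrder_iff_pow_eq_one.2 ⟨m * r, Nat.mul_pos hm hr, ?_⟩
      rw [pow_mul]
      exact h1)
  refine ⟨n, θ.comp ((QuotientGroup.mk' T).comp χ.rangeRestrict), fun g hg => ?_⟩
  have h1 : QuotientGroup.mk' T (χ.rangeRestrict g) = 1 := hθ (hg.trans (map_one θ).symm)
  obtain ⟨m, hm, h2⟩ := hT _ ((QuotientGroup.eq_one_iff _).1 h1)
  exact ⟨m, hm, congrArg Subtype.val h2⟩

section

variable {K : Type v} [Field K] [CharZero K] {G : Type u} [Group G] (ψ : G →* GL (Fin 2) K)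

theorem mul00 (htri : ∀ g, (ψ g).1 1 0 = 0) (g h : G) :
    (ψ (g * h)).1 0 0 = (ψ g).1 0 0 * (ψ h).1 0 0 := by
  rw [map_mul]
  show ((ψ g).1 * (ψ h).1) 0 0 = _
  rw [Matrix.mul_apply, Fin.sum_univ_two, htri h, mul_zero, add_zero]

theorem mul11 (htri : ∀ g, (ψ g).1 1 0 = 0) (g h : G) :
    (ψ (g * h)).1 1 1 = (ψ g).1 1 1 * (ψ h).1 1 1 := by
  rw [map_mul]
  show ((ψ g).1 * (ψ h).1) 1 1 = _
  rw [Matrix.mul_apply, Fin.sum_univ_two, htri g, zero_mul, zero_add]

theorem mul01 (g h : G) :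
    (ψ (g * h)).1 0 1 = (ψ g).1 0 0 * (ψ h).1 0 1 + (ψ g).1 0 1 * (ψ h).1 1 1 := by
  rw [map_mul]
  show ((ψ g).1 * (ψ h).1) 0 1 = _
  rw [Matrix.mul_apply, Fin.sum_univ_two]

theorem one_ij (i j : Fin 2) : (ψ 1).1 i j = (1 : Matrix (Fin 2) (Fin 2) K) i j := by
  rw [map_one, Units.val_one]

/-- The first diagonal entry. -/
def dg0 (htri : ∀ g, (ψ g).1 1 0 = 0) : G →* K where
  toFun g := (ψ g).1 0 0
  map_one' := by rw [one_ij, Matrix.one_apply_eq]
  map_mul' g h := mul00 ψ htri g h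

/-- The second diagonal entry. -/
def dg1 (htri : ∀ g, (ψ g).1 1 0 = 0) : G →* K where
  toFun g := (ψ g).1 1 1
  map_one' := by rw [one_ij, Matrix.one_apply_eq]
  map_mul' g h := mul11 ψ htri g h

/-- The entries lie in a finitely generated commutative group. -/
theorem exists_mod [hfg : Group.FG G] (htri : ∀ g, (ψ g).1 1 0 = 0)
    (ha : ∀ g, IsIntegral ℤ ((ψ g).1 0 0)) (hd : ∀ g, IsIntegral ℤ ((ψ g).1 1 1)) :
    ∃ (O : Subalgebra ℤ K) (M : Submodule O K), Module.Finite ℤ M ∧ (∀ g, (ψ g).1 0 0 ∈ O) ∧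
      (∀ g, (ψ g).1 1 1 ∈ O) ∧ ∀ g, (ψ g).1 0 1 ∈ M := by
  classical
  obtain ⟨S, hS⟩ := hfg.out
  let A : Set K := ((fun g => (ψ g).1 0 0) '' (S : Set G) ∪ (fun g => (ψ g).1 1 1) '' (S : Set G)) ∪
    ((fun g => (ψ g⁻¹).1 0 0) '' (S : Set G) ∪ (fun g => (ψ g⁻¹).1 1 1) '' (S : Set G))
  have hAf : A.Finite := ((S.finite_toSet.image _).union (S.finite_toSet.image _)).union
    ((S.finite_toSet.image _).union (S.finite_toSet.image _))
  have hAi : ∀ x ∈ A, IsIntegral ℤ x := by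
    rintro x ((⟨g, -, rfl⟩ | ⟨g, -, rfl⟩) | (⟨g, -, rfl⟩ | ⟨g, -, rfl⟩))
    · exact ha _
    · exact hd _
    · exact ha _
    · exact hd _
  let O : Subalgebra ℤ K := Algebra.adjoin ℤ A
  have hO : Module.Finite ℤ O := Module.Finite.iff_fg.2 (fg_adjoin_of_finite hAf hAi)
  let B : Set K := (fun g => (ψ g).1 0 1) '' (S : Set G) ∪ (fun g => (ψ g⁻¹).1 0 1) '' (S : Set G)
  have hBf : B.Finite := (S.finite_toSet.image _).union (S.finite_toSet.image _)
  let M : Submodule O K := Submodule.span O B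
  have hM : Module.Finite O M := Module.Finite.span_of_finite O hBf
  have hMZ : Module.Finite ℤ M := Module.Finite.trans O M
  have key : ∀ g ∈ Subgroup.closure (S : Set G),
      ((ψ g).1 0 0 ∈ O ∧ (ψ g).1 1 1 ∈ O ∧ (ψ g).1 0 1 ∈ M) ∧
      ((ψ g⁻¹).1 0 0 ∈ O ∧ (ψ g⁻¹).1 1 1 ∈ O ∧ (ψ g⁻¹).1 0 1 ∈ M) := by
    have hone : (ψ 1).1 0 0 ∈ O ∧ (ψ 1).1 1 1 ∈ O ∧ (ψ 1).1 0 1 ∈ M := by
      rw [one_ij, one_ij, one_ij, Matrix.one_apply_eq, Matrix.one_apply_eq,
        Matrix.one_apply_ne (by decide)]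
      exact ⟨O.one_mem, O.one_mem, M.zero_mem⟩
    have hmul : ∀ g h : G, ((ψ g).1 0 0 ∈ O ∧ (ψ g).1 1 1 ∈ O ∧ (ψ g).1 0 1 ∈ M) →
        ((ψ h).1 0 0 ∈ O ∧ (ψ h).1 1 1 ∈ O ∧ (ψ h).1 0 1 ∈ M) →
        ((ψ (g * h)).1 0 0 ∈ O ∧ (ψ (g * h)).1 1 1 ∈ O ∧ (ψ (g * h)).1 0 1 ∈ M) := by
      intro g h hg hh
      rw [mul00 ψ htri, mul11 ψ htri, mul01]
      refine ⟨O.mul_mem hg.1 hh.1, O.mul_mem hg.2.1 hh.2.1, M.add_mem ?_ ?_⟩
      · exact M.smul_mem (⟨_, hg.1⟩ : O) hh.2.2
      · rw [mul_comm]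
        exact M.smul_mem (⟨_, hh.2.1⟩ : O) hg.2.2
    intro g hg
    induction hg using Subgroup.closure_induction with
    | mem s hs =>
      exact ⟨⟨Algebra.subset_adjoin (Or.inl (Or.inl ⟨s, hs, rfl⟩)),
        Algebra.subset_adjoin (Or.inl (Or.inr ⟨s, hs, rfl⟩)),
        Submodule.subset_span (Or.inl ⟨s, hs, rfl⟩)⟩,
        Algebra.subset_adjoin (Or.inr (Or.inl ⟨s, hs, rfl⟩)),
        Algebra.subset_adjoin (Or.inr (Or.inr ⟨s, hs, rfl⟩)),
        Submodule.subset_span (Or.inr ⟨s, hs, rfl⟩)⟩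
    | one =>
      rw [inv_one]
      exact ⟨hone, hone⟩
    | mul g h _ _ hg hh =>
      rw [_root_.mul_inv_rev]
      exact ⟨hmul _ _ hg.1 hh.1, hmul _ _ hh.2 hg.2⟩
    | inv g _ hg =>
      rw [inv_inv]
      exact ⟨hg.2, hg.1⟩
  have hall : ∀ g : G, g ∈ Subgroup.closure (S : Set G) := fun g => by
    rw [hS]
    exact Subgroup.mem_top g
  exact ⟨O, M, hMZ, fun g => (key g (hall g)).1.1, fun g => (key g (hall g)).1.2.1,
    fun g => (key g (hall g)).1.2.2⟩

/-- Powers of triangular matrices. -/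
theorem pow_tri (htri : ∀ g, (ψ g).1 1 0 = 0) (g : G) (n : ℕ) :
    (ψ (g ^ n)).1 0 0 = (ψ g).1 0 0 ^ n ∧ (ψ (g ^ n)).1 1 1 = (ψ g).1 1 1 ^ n ∧
    (ψ (g ^ n)).1 0 1 * ((ψ g).1 0 0 - (ψ g).1 1 1) =
      (ψ g).1 0 1 * ((ψ g).1 0 0 ^ n - (ψ g).1 1 1 ^ n) := by
  induction n with
  | zero =>
    rw [pow_zero, one_ij, one_ij, one_ij, Matrix.one_apply_eq, Matrix.one_apply_eq,
      Matrix.one_apply_ne (by decide)]
    simp
  | succ n ih =>
    rw [pow_succ g, mul00 ψ htri, mul11 ψ htri, mul01, ih.1, ih.2.1]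
    refine ⟨(pow_succ _ _).symm, (pow_succ _ _).symm, ?_⟩
    linear_combination (ψ g).1 1 1 * ih.2.2

/-- Triangular groups. -/
theorem inN_tri [hfg : Group.FG G] (htri : ∀ g, (ψ g).1 1 0 = 0)
    (ha : ∀ g, IsIntegral ℤ ((ψ g).1 0 0)) (hd : ∀ g, IsIntegral ℤ ((ψ g).1 1 1))
    (htf : ∀ (g : G) (n : ℕ), 0 < n → ψ g ^ n = 1 → ψ g = 1)
    (hk : ∀ (H : Type u) [Group H] (f : H →* G), Function.Injective f → (∀ h, ψ (f h) = 1) →
      InN H) : InN G := by
  obtain ⟨O, M, hM, hO0, hO1, hM1⟩ := exists_mod ψ htri ha hd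
  obtain ⟨n, θ, hθ⟩ := exists_theta ((dg0 ψ htri).toHomUnits.prod (dg1 ψ htri).toHomUnits)
  have hne : ∀ g, (ψ g).1 0 0 ≠ 0 := fun g h => by
    have h1 := mul00 ψ htri g g⁻¹
    rw [mul_inv_cancel, one_ij, Matrix.one_apply_eq, h, zero_mul] at h1
    exact one_ne_zero h1
  -- the elements in the kernel of `θ`
  have h1 : ∀ g, θ g = 1 → ∃ m : ℕ, 0 < m ∧ (ψ g).1 0 0 ^ m = 1 ∧ (ψ g).1 1 1 ^ m = 1 := by
    intro g hg
    obtain ⟨m, hm, h⟩ := hθ g hg
    refine ⟨m, hm, ?_, ?_⟩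
    · exact congrArg (fun x : Kˣ × Kˣ => (x.1 : K)) h
    · exact congrArg (fun x : Kˣ × Kˣ => (x.2 : K)) h
  have h2 : ∀ g, θ g = 1 → (ψ g).1 0 0 = (ψ g).1 1 1 := by
    intro g hg
    by_contra hne'
    obtain ⟨m, hm, h3, h4⟩ := h1 g hg
    obtain ⟨h5, h6, h7⟩ := pow_tri ψ htri g m
    rw [h3, h4, sub_self, mul_zero, mul_eq_zero] at h7
    have h8 := h7.resolve_right (sub_ne_zero.2 hne')
    have h9 : ψ (g ^ m) = 1 := by
      refine Units.ext (Matrix.ext fun i j => ?_)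
      rw [Units.val_one]
      fin_cases i <;> fin_cases j
      · exact (h5.trans h3).trans (Matrix.one_apply_eq _).symm
      · exact h8.trans (Matrix.one_apply_ne (by decide)).symm
      · exact (htri _).trans (Matrix.one_apply_ne (by decide)).symm
      · exact (h6.trans h4).trans (Matrix.one_apply_eq _).symm
    rw [map_pow] at h9
    have h10 := htf g m hm h9
    refine hne' ?_
    rw [h10, Units.val_one, Matrix.one_apply_eq, Matrix.one_apply_eq]
  refine inN_zn' n G θ fun H _ f hf hfθ => ?_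
  -- the homomorphism to `M`
  have hmem : ∀ h, (ψ (f h)⁻¹).1 0 0 * (ψ (f h)).1 0 1 ∈ M := fun h =>
    M.smul_mem (⟨_, hO0 (f h)⁻¹⟩ : O) (hM1 (f h))
  have hinv : ∀ g, (ψ g⁻¹).1 0 0 * (ψ g).1 0 0 = 1 := fun g => by
    rw [← mul00 ψ htri, inv_mul_cancel, one_ij, Matrix.one_apply_eq]
  let c : Additive H →+ M :=
    { toFun := fun h => ⟨(ψ (f h.toMul)⁻¹).1 0 0 * (ψ (f h.toMul)).1 0 1, hmem _⟩
      map_zero' := Subtype.ext (by
        show (ψ (f 1)⁻¹).1 0 0 * (ψ (f 1)).1 0 1 = 0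
        rw [map_one f, one_ij, Matrix.one_apply_ne (by decide), mul_zero])
      map_add' := fun g h => Subtype.ext (by
        show (ψ (f (g.toMul * h.toMul))⁻¹).1 0 0 * (ψ (f (g.toMul * h.toMul))).1 0 1 =
          (ψ (f g.toMul)⁻¹).1 0 0 * (ψ (f g.toMul)).1 0 1 +
          (ψ (f h.toMul)⁻¹).1 0 0 * (ψ (f h.toMul)).1 0 1
        have e1 := h2 (f h.toMul) (hfθ h.toMul)
        have e2 := hinv (f g.toMul)
        have e3 := hinv (f h.toMul)
        rw [map_mul f, _root_.mul_inv_rev, mul00 ψ htri, mul01, ← e1]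
        linear_combination (ψ (f h.toMul)⁻¹).1 0 0 * (ψ (f h.toMul)).1 0 1 * e2 +
          (ψ (f g.toMul)⁻¹).1 0 0 * (ψ (f g.toMul)).1 0 1 * e3) }
  have hMt : IsAddTorsionFree M := by
    refine ⟨fun n hn a b hab => ?_⟩
    have h1 : (n : K) * (a : K) = n * (b : K) := by
      have := congrArg Subtype.val hab
      simpa [nsmul_eq_mul] using this
    exact Subtype.ext (mul_left_cancel₀ (Nat.cast_ne_zero.2 hn) h1)
  obtain ⟨r, b⟩ := Module.basisOfFiniteTypeTorsionFree' (R := ℤ) (M := M)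
  let θ' : H →* Multiplicative (Fin r → ℤ) :=
    AddMonoidHom.toMultiplicativeRight (b.equivFun.toLinearMap.toAddMonoidHom.comp c)
  refine inN_zn' r H θ' fun H' _ f' hf' hf'θ => ?_
  refine hk H' (f.comp f') (hf.comp hf') fun h => ?_
  have h3 : c (Additive.ofMul (f' h)) = 0 := by
    apply b.equivFun.injective
    rw [map_zero]
    exact congrArg Multiplicative.toAdd (hf'θ h)
  have h4 : (ψ (f (f' h))⁻¹).1 0 0 * (ψ (f (f' h))).1 0 1 = 0 := congrArg Subtype.val h3
  have h5 : (ψ (f (f' h))).1 0 1 = 0 := (mul_eq_zero.1 h4).resolve_left (hne _)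
  obtain ⟨m, hm, h6, h7⟩ := h1 (f (f' h)) (hfθ _)
  refine htf (f (f' h)) m hm ?_
  rw [← map_pow]
  obtain ⟨h8, h9, h10⟩ := pow_tri ψ htri (f (f' h)) m
  have h11 : ∀ k : ℕ, (ψ (f (f' h) ^ k)).1 0 1 = 0 := by
    intro k
    induction k with
    | zero => rw [pow_zero, one_ij, Matrix.one_apply_ne (by decide)]
    | succ k ih => rw [pow_succ, mul01, ih, h5, mul_zero, zero_mul, add_zero]
  refine Units.ext (Matrix.ext fun i j => ?_)
  rw [Units.val_one]
  fin_cases i <;> fin_cases j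
  · exact (h8.trans h6).trans (Matrix.one_apply_eq _).symm
  · exact (h11 m).trans (Matrix.one_apply_ne (by decide)).symm
  · exact (htri _).trans (Matrix.one_apply_ne (by decide)).symm
  · exact (h9.trans h7).trans (Matrix.one_apply_eq _).symm

end

/-- Roots of monic polynomials of degree two with integral coefficients. -/
theorem isIntegral_root {K : Type v} [Field K] {a t d : K} (ht : IsIntegral ℤ t)
    (hd : IsIntegral ℤ d) (h : a * a - t * a + d = 0) : IsIntegral ℤ a := by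
  have h1 : IsIntegral (integralClosure ℤ K) a := by
    refine ⟨Polynomial.X ^ 2 - Polynomial.C (⟨t, ht⟩ : integralClosure ℤ K) * Polynomial.X +
      Polynomial.C (⟨d, hd⟩ : integralClosure ℤ K), by monicity!, ?_⟩
    rw [Polynomial.eval₂_add, Polynomial.eval₂_sub, Polynomial.eval₂_mul,
      Polynomial.eval₂_X_pow, Polynomial.eval₂_C, Polynomial.eval₂_C, Polynomial.eval₂_X]
    show a ^ 2 - t * a + d = 0
    rw [pow_two, h]
  exact isIntegral_trans a h1

section

variable {K : Type v} [Field K] [CharZero K] {G : Type u} [Group G] (ψ : G →* GL (Fin 2) K)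

/-- The element `c` is an elementary matrix and the traces of `c g c g⁻¹` are `2`. -/
theorem tri_of (c : G) (h00 : (ψ c).1 0 0 = 1) (h10 : (ψ c).1 1 0 = 0) (h11 : (ψ c).1 1 1 = 1)
    (h01 : (ψ c).1 0 1 ≠ 0) (g : G) (h : trace (ψ (c * (g * c * g⁻¹))).1 = 2) :
    (ψ g).1 1 0 = 0 := by
  have e1 : (ψ g).1 * (ψ g⁻¹).1 = 1 := by
    rw [← Units.val_mul, ← map_mul, mul_inv_cancel, map_one, Units.val_one]
  have e2 : (ψ g⁻¹).1 * (ψ g).1 = 1 := by
    rw [← Units.val_mul, ← map_mul, inv_mul_cancel, map_one, Units.val_one]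
  have m : ∀ (A B : Matrix (Fin 2) (Fin 2) K) i j,
      (A * B) i j = A i 0 * B 0 j + A i 1 * B 1 j := fun A B i j => by
    rw [Matrix.mul_apply, Fin.sum_univ_two]
  have f00 := congrFun (congrFun e1 0) 0
  have f10 := congrFun (congrFun e1 1) 0
  have f11 := congrFun (congrFun e1 1) 1
  have k10 := congrFun (congrFun e2 1) 0
  have k11 := congrFun (congrFun e2 1) 1
  rw [m] at f00 f10 f11 k10 k11
  rw [Matrix.one_apply_eq] at f00 f11 k11
  rw [Matrix.one_apply_ne (by decide)] at f10 k10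
  have e3 : trace (ψ (c * (g * c * g⁻¹))).1 =
      trace ((ψ c).1 * ((ψ g).1 * (ψ c).1 * (ψ g⁻¹).1)) := by
    rw [map_mul, map_mul, map_mul]
    rfl
  rw [e3, Matrix.trace_fin_two] at h
  simp only [m, h00, h10, h11] at h
  have h2 : (ψ c).1 0 1 ^ 2 * ((ψ g).1 1 0 * (ψ g⁻¹).1 1 0) = 0 := by
    linear_combination h - f00 - f11 - (ψ c).1 0 1 * f10 - (ψ c).1 0 1 * k10
  rcases mul_eq_zero.1 ((mul_eq_zero.1 h2).resolve_left (pow_ne_zero 2 h01)) with h3 | h3
  · exact h3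
  · rw [h3, zero_mul, zero_add] at k10 k11
    exact (mul_eq_zero.1 k10).resolve_left (left_ne_zero_of_mul_eq_one k11)

/-- Commutative groups. -/
theorem inN_comm [hfg : Group.FG G] (hc : ∀ c ∈ commutator G, ψ c = 1)
    (htf : ∀ (g : G) (n : ℕ), 0 < n → ψ g ^ n = 1 → ψ g = 1)
    (hk : ∀ (H : Type u) [Group H] (f : H →* G), Function.Injective f → (∀ h, ψ (f h) = 1) →
      InN H) : InN G := by
  have hcomm : ∀ a b : ψ.range, a * b = b * a := by
    rintro ⟨_, a, rfl⟩ ⟨_, b, rfl⟩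
    refine Subtype.ext ?_
    show ψ a * ψ b = ψ b * ψ a
    have h1 : ψ ⁅a, b⁆ = 1 := hc _ (Subgroup.commutator_mem_commutator
      (Subgroup.mem_top a) (Subgroup.mem_top b))
    rw [map_commutatorElement, commutatorElement_eq_one_iff_mul_comm] at h1
    exact h1
  have htf' : TorsionFree ψ.range := by
    rintro ⟨_, a, rfl⟩ n hn h
    exact Subtype.ext (htf a n hn (congrArg Subtype.val h))
  obtain ⟨n, θ, hθ⟩ := exists_zn ψ.range hcomm htf'
  refine inN_zn' n G (θ.comp ψ.rangeRestrict) fun H _ f hf hfθ => hk H f hf fun h => ?_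
  have h1 : ψ.rangeRestrict (f h) = 1 := hθ ((hfθ h).trans (map_one θ).symm)
  exact congrArg Subtype.val h1

/-- Finitely generated groups with integral traces and determinants such that the elements of the
commutator subgroup have trace `2`. -/
theorem inN_slv [hfg : Group.FG G] (ht : ∀ g, IsIntegral ℤ (trace (ψ g).1))
    (hd : ∀ g, IsIntegral ℤ (det (ψ g).1)) (hc : ∀ c ∈ commutator G, trace (ψ c).1 = 2)
    (htf : ∀ (g : G) (n : ℕ), 0 < n → ψ g ^ n = 1 → ψ g = 1)
    (hk : ∀ (H : Type u) [Group H] (f : H →* G), Function.Injective f → (∀ h, ψ (f h) = 1) →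
      InN H) : InN G := by
  by_cases hall : ∀ c ∈ commutator G, ψ c = 1
  · exact inN_comm ψ hall htf hk
  push Not at hall
  obtain ⟨c, hcc, hc1⟩ := hall
  have hdet : det (ψ c).1 = 1 := by
    have h1 := Abelianization.commutator_subset_ker
      ((Matrix.GeneralLinearGroup.det (n := Fin 2) (R := K)).comp ψ) hcc
    exact congrArg (fun x : Kˣ => (x : K)) h1
  have htr := hc c hcc
  -- the fixed vector
  have h0 : det ((ψ c).1 - 1) = 0 := by
    rw [Matrix.det_fin_two] at hdet ⊢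
    rw [Matrix.trace_fin_two] at htr
    rw [Matrix.sub_apply, Matrix.sub_apply, Matrix.sub_apply, Matrix.sub_apply,
      Matrix.one_apply_eq, Matrix.one_apply_eq, Matrix.one_apply_ne (by decide),
      Matrix.one_apply_ne (by decide)]
    linear_combination hdet - htr
  obtain ⟨w, hw, hcw⟩ := Matrix.exists_mulVec_eq_zero_iff.2 h0
  rw [Matrix.sub_mulVec, Matrix.one_mulVec, sub_eq_zero] at hcw
  obtain ⟨P, hP0, hP1⟩ : ∃ P : GL (Fin 2) K, P.1 0 0 = w 0 ∧ P.1 1 0 = w 1 := by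
    by_cases h00 : w 0 = 0
    · have h11 : w 1 ≠ 0 := fun h => hw (by
        funext i
        fin_cases i
        · exact h00
        · exact h)
      refine ⟨Matrix.GeneralLinearGroup.mkOfDetNeZero (Matrix.of ![![w 0, 1], ![w 1, 0]]) ?_,
        rfl, rfl⟩
      rw [Matrix.det_fin_two]
      show w 0 * 0 - 1 * w 1 ≠ 0
      rw [mul_zero, one_mul, zero_sub]
      exact neg_ne_zero.2 h11
    · refine ⟨Matrix.GeneralLinearGroup.mkOfDetNeZero (Matrix.of ![![w 0, 0], ![w 1, 1]]) ?_,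
        rfl, rfl⟩
      rw [Matrix.det_fin_two]
      show w 0 * 1 - 0 * w 1 ≠ 0
      rw [mul_one, zero_mul, sub_zero]
      exact h00
  have hPw : P.1 *ᵥ Pi.single 0 1 = w := by
    funext i
    rw [Matrix.mulVec_single_one]
    fin_cases i
    · exact hP0
    · exact hP1
  let ψ' : G →* GL (Fin 2) K := (MulAut.conj P⁻¹).toMonoidHom.comp ψ
  have e1 : ∀ g, ψ' g = P⁻¹ * ψ g * (P⁻¹)⁻¹ := fun g => rfl
  have e2 : ∀ g, ψ' g = P⁻¹ * ψ g * P := fun g => by rw [e1, inv_inv]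
  have etr : ∀ g, trace (ψ' g).1 = trace (ψ g).1 := fun g => by
    rw [e1]
    exact Matrix.trace_units_conj P⁻¹ _
  have edet : ∀ g, det (ψ' g).1 = det (ψ g).1 := fun g => by
    rw [e1]
    exact Matrix.det_units_conj P⁻¹ _
  have e4 : ∀ g, ψ' g = 1 ↔ ψ g = 1 := fun g => by
    constructor
    · intro h
      have h1 : (MulAut.conj P⁻¹) (ψ g) = (MulAut.conj P⁻¹) 1 := h.trans (map_one _).symm
      exact (MulAut.conj P⁻¹).injective h1
    · intro h
      show (MulAut.conj P⁻¹) (ψ g) = 1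
      rw [h, map_one]
  have hcol : (ψ' c).1 *ᵥ Pi.single 0 1 = Pi.single 0 1 := by
    rw [e2]
    show (P⁻¹.1 * (ψ c).1 * P.1) *ᵥ _ = _
    rw [← Matrix.mulVec_mulVec, hPw, ← Matrix.mulVec_mulVec, hcw, ← hPw, Matrix.mulVec_mulVec]
    show (P⁻¹.1 * P.1) *ᵥ _ = _
    rw [Units.inv_mul, Matrix.one_mulVec]
  rw [Matrix.mulVec_single_one] at hcol
  have c00 : (ψ' c).1 0 0 = 1 := (congrFun hcol 0).trans (Pi.single_eq_same _ _)
  have c10 : (ψ' c).1 1 0 = 0 := (congrFun hcol 1).trans (Pi.single_eq_of_ne (by decide) _)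
  have c11 : (ψ' c).1 1 1 = 1 := by
    have h1 := etr c
    rw [htr, Matrix.trace_fin_two, c00] at h1
    linear_combination h1
  have c01 : (ψ' c).1 0 1 ≠ 0 := by
    intro h
    refine hc1 ((e4 c).1 (Units.ext (Matrix.ext fun i j => ?_)))
    rw [Units.val_one]
    fin_cases i <;> fin_cases j
    · exact c00.trans (Matrix.one_apply_eq _).symm
    · exact h.trans (Matrix.one_apply_ne (by decide)).symm
    · exact c10.trans (Matrix.one_apply_ne (by decide)).symm
    · exact c11.trans (Matrix.one_apply_eq _).symm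
  have htri : ∀ g, (ψ' g).1 1 0 = 0 := fun g => tri_of ψ' c c00 c10 c11 c01 g (by
    rw [etr]
    exact hc _ (mul_mem hcc ((inferInstance : (commutator G).Normal).conj_mem c hcc g)))
  have hd2 : ∀ g, (ψ' g).1 0 0 * (ψ' g).1 1 1 = det (ψ g).1 := fun g => by
    rw [← edet, Matrix.det_fin_two, htri, mul_zero, sub_zero]
  have ht2 : ∀ g, (ψ' g).1 0 0 + (ψ' g).1 1 1 = trace (ψ g).1 := fun g => by
    rw [← etr, Matrix.trace_fin_two]
  refine inN_tri ψ' htri (fun g => isIntegral_root (ht g) (hd g) ?_)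
    (fun g => isIntegral_root (ht g) (hd g) ?_) (fun g n hn h => ?_)
    fun H _ f hf h => hk H f hf fun x => (e4 _).1 (h x)
  · rw [← ht2, ← hd2]
    ring
  · rw [← ht2, ← hd2]
    ring
  · rw [e4]
    refine htf g n hn ?_
    rw [← map_pow, ← e4, map_pow, h]

/-- SLV. Groups with integral traces and determinants such that the elements of the commutator
subgroup have trace `2`. -/
theorem inRC_slv (ht : ∀ g, IsIntegral ℤ (trace (ψ g).1))
    (hd : ∀ g, IsIntegral ℤ (det (ψ g).1)) (hc : ∀ c ∈ commutator G, trace (ψ c).1 = 2)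
    (htf : ∀ (g : G) (n : ℕ), 0 < n → ψ g ^ n = 1 → ψ g = 1)
    (hk : ∀ (H : Type u) [Group H] (f : H →* G), Function.Injective f → (∀ h, ψ (f h) = 1) →
      InN H) : InRC G := by
  refine ((main.{u}).2.2.2.1 G).2.2.2.2.2.1 fun S => ⟨Subgroup.closure (S : Set G),
    fun s hs => Subgroup.subset_closure hs, inRC_of_inN ?_⟩
  refine inN_slv (ψ.comp (Subgroup.subtype _)) (fun g => ht g.1) (fun g => hd g.1)
    (fun c hcc => hc c.1 ?_) (fun g n hn h => htf g.1 n hn h)
    fun H _ f hf h => hk H ((Subgroup.subtype _).comp f) (Subtype.val_injective.comp hf) h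
  have h1 : (Subgroup.closure (S : Set G)).subtype c ∈
      (commutator (Subgroup.closure (S : Set G))).map (Subgroup.closure (S : Set G)).subtype :=
    ⟨c, hcc, rfl⟩
  rw [commutator_def, Subgroup.map_commutator] at h1
  exact Subgroup.commutator_mono le_top le_top h1

end

end Pool.Agent.NegK.NT.H80
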