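import Pool.Agent.Lib.MP_28303a_al.NT.H80.Psi
import Pool.Agent.Lib.MP_28303a_al.NT.EX.Defs
import Pool.Agent.Lib.MP_28303a_al.NT.EX91.Rof
import Pool.Agent.Lib.MP_28303a_al.NT.ER71.All

/-! # Row PSI: the homomorphism from `K₀` of an additive function -/

set_option autoImplicit false
set_option linter.unusedSectionVars false
set_option linter.unusedVariables false

namespace Pool.Agent.NegK.NT.H80

universe u v

open CategoryTheory Limits Pretriangulated Idempotents
open Pool.Agent.NegK.TW Pool.Agent.NegK.TT Pool.Agent.NegK.NT.ER Pool.Agent.NegK.NT.EX91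
open Pool.Agent.NegK.NT.EX

section

variable {k : Type u} [Ring k] {Γ : Type u} [Group Γ]

/-- Sums of perfect objects. -/
theorem per_biprod {B : Type u} [MulAction Γ B] {P : Pre Γ B} {X Y : KK k P} (hX : Per X)
    (hY : Per Y) : Per (X ⊞ Y) :=
  per2 (binaryBiproductTriangle_distinguished X Y) hX hY

/-- Additive functions on sums. -/
theorem addF_biprod {B : Type u} [MulAction Γ B] {P : Pre Γ B} {G : Type v} [AddCommGroup G]
    {F : KK k P → G} (hF : AddF F) {X Y : KK k P} (hX : Per X) (hY : Per Y) :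
    F (X ⊞ Y) = F X + F Y :=
  hF _ (binaryBiproductTriangle_distinguished X Y) hX (per_biprod hX hY) hY

/-- The objects `atH` are the objects `Ye`. -/
theorem mok_atH {B : Type u} [MulAction Γ B] (P : Pre Γ B) (H : Subgroup Γ) (b : B)
    (hH : ∀ g ∈ H, P.le b (g • b)) (q : Idem (MonoidAlgebra k H)) :
    Mok P b b (q.map (mdr k H.subtype)).e :=
  fun i j g hg => hH g (mem_of_mdr _ hg)

theorem atH_eq {B : Type u} [MulAction Γ B] (P : Pre Γ B) (H : Subgroup Γ) (b : B)
    (hH : ∀ g ∈ H, P.le b (g • b)) (q : Idem (MonoidAlgebra k H)) :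
    atH P H b hH q = Ye (q.map (mdr k H.subtype)) b (mok_atH P H b hH q) := rfl

variable {T : Sys Γ} {j : Fin T.m}

/-- PSI, from the extensions. -/
theorem psi_ext (hE : ∀ J : Finset (Fin T.m), j ∈ J → T.EXT Finset.univ J)
    (hk : RegularRing k) {G : Type v} [AddCommGroup G] {F : KK k (T.P {j}) → G} (hF : AddF F)
    (h0 : ∀ X : KK k (T.P {j}), Per X →
      IsZero ((T.L k (Finset.empty_subset {j})).obj X) → F X = 0) :
    ∃ Ψ : K0 (MonoidAlgebra k Γ) →+ G,
      (∀ (p : Idem (MonoidAlgebra k Γ)) (D : KK k (T.P {j})), Lft T j k p D →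
        Ψ (K0.cls p) = F D) ∧
      ∀ (H : Subgroup Γ) (U : T.Box) (hH : ∀ g ∈ H, (T.P {j}).le U (g • U))
        (q : Idem (MonoidAlgebra k H)) (X : KK k (T.P {j})), Per X →
        Nonempty ((tk k _).obj X ≅ sk (atH (T.P {j}) H U hH q)) →
        Ψ (K0.map (mdr k H.subtype) (K0.cls q)) = F X := by
  obtain ⟨Ψ, hΨ⟩ := psi (T := T) (j := j) (k := k) F
    (fun X Y hX hY => ⟨X ⊞ Y, per_biprod hX hY, ⟨Dsum.biprod X Y⟩, addF_biprod hF hX hY⟩)
    (fun X X' hX hX' e => rof_eq hF h0 hX hX' e.some)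
    (ER53.ind Γ T j (stepB T) hE k hk)
  refine ⟨Ψ, hΨ, fun H U hH q X hX e => ?_⟩
  rw [K0.map_cls]
  exact hΨ _ X (lft_single U _ (mok_atH _ H U hH q) hX e.some)

end

/-- Row PSI, from the rows RES and CL. -/
theorem psi_of (hRes : ResStatement.{u}) (hCl : ClStatement.{u}) : EX.PsiStatement.{u} := by
  intro Γ _ T D j _ _ K hU k _ hk G _ F hF h0
  have hB : ∀ J : Finset (Fin T.m), j ∈ J → T.EXT Finset.univ J :=
    ER91.base Γ T D j (H32.ret T (H47.kos T)) fun k _ hk =>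
      ⟨fun M => AA (nv K) M, hCl Γ T D j K hU k hk,
        fun M hM hT => hRes Γ T D j K hU k hk M hM hT⟩
  obtain ⟨Ψ, -, hΨ⟩ := psi_ext hB hk hF h0
  exact ⟨Ψ, hΨ⟩

/-- Row PSI. -/
theorem psiS : EX.PsiStatement.{u} :=
  psi_of (ER27.res ER73.rrS ER.zs ER47.tr ER71.zrS (ER.yr goodS ER47.ys) goodS) ER47.cl

end Pool.Agent.NegK.NT.H80
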