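import Pool.Agent.Lib.MP_28303a_al.NT5.C1
import Pool.Agent.Lib.MP_28303a_al.NT.H80.Slv

/-! # Projective groups of degree two -/

set_option autoImplicit false
set_option linter.unusedSectionVars false
set_option linter.unusedVariables false

namespace Pool.Agent.NegK.NT.H80

universe u v

open Matrix
open Pool.Agent.NegK.TW
open Pool.Agent.NegK.TT
open Pool.Agent.NegK.NT
open NT5 (gl_ext gl_one spz spz_apply spz_det spz_trace conj_tri' SpecStatement AffStatement
  map_inj)
open scoped commutatorElement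

/-- The centre of `GL₂`. -/
theorem mem_cen {K : Type*} [Field K] {g : GL (Fin 2) K} :
    g ∈ Subgroup.center (GL (Fin 2) K) ↔ g.1 0 1 = 0 ∧ g.1 1 0 = 0 ∧ g.1 0 0 = g.1 1 1 := by
  rw [Matrix.GeneralLinearGroup.mem_center_iff_val_mem_range_scalar]
  constructor
  · rintro ⟨a, ha⟩
    rw [Matrix.scalar_apply] at ha
    refine ⟨?_, ?_, ?_⟩
    · rw [← ha]
      exact Matrix.diagonal_apply_ne _ (by decide)
    · rw [← ha]
      exact Matrix.diagonal_apply_ne _ (by decide)
    · rw [← ha, Matrix.diagonal_apply_eq, Matrix.diagonal_apply_eq]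
  · rintro ⟨h1, h2, h3⟩
    refine ⟨g.1 0 0, ?_⟩
    rw [Matrix.scalar_apply]
    ext i j
    fin_cases i <;> fin_cases j
    · exact Matrix.diagonal_apply_eq _ _
    · exact (Matrix.diagonal_apply_ne _ (by decide)).trans h1.symm
    · exact (Matrix.diagonal_apply_ne _ (by decide)).trans h2.symm
    · exact (Matrix.diagonal_apply_eq _ _).trans h3

theorem cen_map {K L : Type*} [Field K] [Field L] (ι : K →+* L) {g : GL (Fin 2) K} :
    GeneralLinearGroup.map ι g ∈ Subgroup.center (GL (Fin 2) L) ↔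
      g ∈ Subgroup.center (GL (Fin 2) K) := by
  rw [mem_cen, mem_cen]
  show ι (g.1 0 1) = 0 ∧ ι (g.1 1 0) = 0 ∧ ι (g.1 0 0) = ι (g.1 1 1) ↔ _
  rw [map_eq_zero, map_eq_zero, ι.injective.eq_iff]

theorem cen_conj {K : Type*} [Field K] {g P : GL (Fin 2) K} :
    P⁻¹ * g * P ∈ Subgroup.center (GL (Fin 2) K) ↔ g ∈ Subgroup.center (GL (Fin 2) K) := by
  constructor
  · intro h
    have h1 := Subgroup.mem_center_iff.1 h P
    have h2 : g = P⁻¹ * g * P := by
      have h3 : P * (P⁻¹ * g * P) = g * P := by group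
      rw [h1] at h3
      exact (mul_right_cancel h3).symm
    rw [h2]
    exact h
  · intro h
    have h1 := Subgroup.mem_center_iff.1 h P
    have h2 : P⁻¹ * g * P = g := by
      rw [mul_assoc, ← h1, inv_mul_cancel_left]
    rw [h2]
    exact h

/-- A common eigenvector gives triangular matrices. -/
theorem exists_P {K : Type*} [Field K] {S : Type*} (q : S → GL (Fin 2) K) (u0 u1 : K)
    (hu : u0 ≠ 0 ∨ u1 ≠ 0)
    (key : ∀ s, u0 * ((q s).1 1 0 * u0 + (q s).1 1 1 * u1) -
      u1 * ((q s).1 0 0 * u0 + (q s).1 0 1 * u1) = 0) :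
    ∃ P : GL (Fin 2) K, ∀ s, (P⁻¹ * q s * P).1 1 0 = 0 := by
  obtain ⟨x, y, hxy⟩ : ∃ x y : K, u0 * y - x * u1 ≠ 0 := by
    rcases hu with hu | hu
    · exact ⟨0, 1, by rwa [mul_one, zero_mul, sub_zero]⟩
    · exact ⟨1, 0, by rw [mul_zero, one_mul, zero_sub]; exact neg_ne_zero.2 hu⟩
  have hdP : (!![u0, x; u1, y] : Matrix (Fin 2) (Fin 2) K).det ≠ 0 := by
    rw [Matrix.det_fin_two_of]
    exact hxy
  refine ⟨Matrix.GeneralLinearGroup.mkOfDetNeZero _ hdP, fun s => ?_⟩
  set P := Matrix.GeneralLinearGroup.mkOfDetNeZero _ hdP with hP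
  have h3 : P.1 = !![u0, x; u1, y] := rfl
  have h6 : P.1.det • (P⁻¹).1 = P.1.adjugate := by
    have h5 : P.1 * (P⁻¹).1 = 1 := by rw [← Units.val_mul, mul_inv_cancel, Units.val_one]
    have h7 : P.1.adjugate * (P.1 * (P⁻¹).1) = P.1.adjugate * 1 := by rw [h5]
    rw [← Matrix.mul_assoc, Matrix.adjugate_mul, Matrix.mul_one, Matrix.smul_mul,
      Matrix.one_mul] at h7
    exact h7
  have h7 : P.1.det * (P⁻¹ * q s * P).1 1 0 = 0 := by
    have h8 : P.1.det * (P⁻¹ * q s * P).1 1 0 = (P.1.adjugate * (q s).1 * P.1) 1 0 := by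
      rw [← h6, Units.val_mul, Units.val_mul, Matrix.smul_mul, Matrix.smul_mul,
        Matrix.smul_apply, smul_eq_mul]
    rw [h8, h3, Matrix.adjugate_fin_two]
    simp only [Matrix.mul_apply, Fin.sum_univ_two, Matrix.of_apply, Matrix.cons_val_zero,
      Matrix.cons_val_one, Matrix.cons_val', Matrix.cons_val_fin_one]
    linear_combination key s
  exact (mul_eq_zero.1 h7).resolve_left hdP

/-- Matrices whose images commute with a matrix which is not scalar are triangular. -/
theorem tri_comm {K : Type*} [Field K] [CharZero K] [IsAlgClosed K] {S : Type*} [Group S]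
    (q : S →* GL (Fin 2) K) (hc : ∀ g h, q g * q h = q h * q g) :
    ∃ P : GL (Fin 2) K, ∀ s, (P⁻¹ * q s * P).1 1 0 = 0 := by
  by_cases hall : ∀ g, q g ∈ Subgroup.center (GL (Fin 2) K)
  · refine ⟨1, fun s => ?_⟩
    rw [inv_one, one_mul, mul_one]
    exact (mem_cen.1 (hall s)).2.1
  · push Not at hall
    obtain ⟨g, hg⟩ := hall
    obtain ⟨s, hs⟩ := IsAlgClosed.exists_pow_nat_eq
      (((q g).1 0 0 - (q g).1 1 1) ^ 2 + 4 * ((q g).1 0 1 * (q g).1 1 0)) (n := 2) two_pos
    -- the eigenvalue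
    obtain ⟨l, hl⟩ : ∃ l : K, (l - (q g).1 0 0) * (l - (q g).1 1 1) =
        (q g).1 0 1 * (q g).1 1 0 := by
      refine ⟨((q g).1 0 0 + (q g).1 1 1 + s) / 2, ?_⟩
      field_simp
      linear_combination hs
    obtain ⟨u0, u1, hu, e0, e1⟩ : ∃ u0 u1 : K, (u0 ≠ 0 ∨ u1 ≠ 0) ∧
        ((q g).1 0 0 - l) * u0 + (q g).1 0 1 * u1 = 0 ∧
        (q g).1 1 0 * u0 + ((q g).1 1 1 - l) * u1 = 0 := by
      by_cases h1 : (q g).1 0 1 = 0 ∧ l - (q g).1 0 0 = 0
      · by_cases h2 : l - (q g).1 1 1 = 0 ∧ (q g).1 1 0 = 0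
        · refine absurd (mem_cen.2 ⟨h1.1, h2.2, ?_⟩) hg
          rw [← sub_eq_zero.1 h1.2]
          exact sub_eq_zero.1 h2.1
        · refine ⟨l - (q g).1 1 1, (q g).1 1 0, ?_, ?_, ?_⟩
          · by_contra h3
            rw [not_or, not_not, not_not] at h3
            exact h2 h3
          · linear_combination -hl
          · ring
      · refine ⟨(q g).1 0 1, l - (q g).1 0 0, ?_, ?_, ?_⟩
        · by_contra h3
          rw [not_or, not_not, not_not] at h3
          exact h1 h3
        · ring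
        · linear_combination -hl
    refine exists_P q u0 u1 hu fun h => ?_
    by_contra hne
    have hcm : (q g).1 * (q h).1 = (q h).1 * (q g).1 := by
      rw [← Units.val_mul, hc, Units.val_mul]
    have c00 := congrFun (congrFun hcm 0) 0
    have c01 := congrFun (congrFun hcm 0) 1
    have c10 := congrFun (congrFun hcm 1) 0
    have c11 := congrFun (congrFun hcm 1) 1
    simp only [Matrix.mul_apply, Fin.sum_univ_two] at c00 c01 c10 c11
    -- the image of the eigenvector
    have f0 : ((q g).1 0 0 - l) * ((q h).1 0 0 * u0 + (q h).1 0 1 * u1) +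
        (q g).1 0 1 * ((q h).1 1 0 * u0 + (q h).1 1 1 * u1) = 0 := by
      linear_combination c00 * u0 + c01 * u1 + (q h).1 0 0 * e0 + (q h).1 0 1 * e1
    have f1 : (q g).1 1 0 * ((q h).1 0 0 * u0 + (q h).1 0 1 * u1) +
        ((q g).1 1 1 - l) * ((q h).1 1 0 * u0 + (q h).1 1 1 * u1) = 0 := by
      linear_combination c10 * u0 + c11 * u1 + (q h).1 1 0 * e0 + (q h).1 1 1 * e1
    set w0 := (q h).1 0 0 * u0 + (q h).1 0 1 * u1 with hw0
    set w1 := (q h).1 1 0 * u0 + (q h).1 1 1 * u1 with hw1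
    have g1 : ((q g).1 0 0 - l) * (u0 * w1 - u1 * w0) = 0 := by
      linear_combination w1 * e0 - u1 * f0
    have g2 : (q g).1 0 1 * (u0 * w1 - u1 * w0) = 0 := by
      linear_combination u0 * f0 - w0 * e0
    have g3 : (q g).1 1 0 * (u0 * w1 - u1 * w0) = 0 := by
      linear_combination w1 * e1 - u1 * f1
    have g4 : ((q g).1 1 1 - l) * (u0 * w1 - u1 * w0) = 0 := by
      linear_combination u0 * f1 - w0 * e1
    refine hg (mem_cen.2 ⟨(mul_eq_zero.1 g2).resolve_right hne,
      (mul_eq_zero.1 g3).resolve_right hne, ?_⟩)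
    rw [sub_eq_zero.1 ((mul_eq_zero.1 g1).resolve_right hne),
      sub_eq_zero.1 ((mul_eq_zero.1 g4).resolve_right hne)]

/-- Groups of matrices such that the traces of the commutators are `2`. -/
theorem tri_two {K : Type u} [Field K] [CharZero K] [IsAlgClosed K] {S : Type u} [Group S]
    (q : S →* GL (Fin 2) K) (hc : ∀ c ∈ commutator S, (q c).1.trace = 2) :
    ∃ P : GL (Fin 2) K, ∀ s, (P⁻¹ * q s * P).1 1 0 = 0 := by
  by_cases hall : ∀ c ∈ commutator S, q c = 1
  · refine tri_comm q fun g h => ?_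
    have h1 : q ⁅g, h⁆ = 1 := hall _ (Subgroup.commutator_mem_commutator
      (Subgroup.mem_top g) (Subgroup.mem_top h))
    rwa [map_commutatorElement, commutatorElement_eq_one_iff_mul_comm] at h1
  · push Not at hall
    obtain ⟨c, hcc, hc1⟩ := hall
    refine conj_tri' q (commutator S) inferInstance hc (fun c hc => ?_) c hcc hc1
    have h1 := Abelianization.commutator_subset_ker
      ((Matrix.GeneralLinearGroup.det (n := Fin 2) (R := K)).comp q) hc
    exact congrArg (fun x : Kˣ => (x : K)) h1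

/-- The affine group of triangular matrices of determinant `1`. -/
noncomputable def aff {K : Type*} [Field K] {G : Type*} [Group G] (q : G →* GL (Fin 2) K)
    (h10 : ∀ g, (q g).1 1 0 = 0) (hdet : ∀ g, (q g).1.det = 1) :
    G →* GL (Fin 2) K :=
  MonoidHom.toHomUnits
    { toFun := fun g => !![(q g).1 0 0 ^ 2, (q g).1 0 0 * (q g).1 0 1; 0, 1]
      map_one' := by
        rw [map_one, gl_one, gl_one, Matrix.one_apply_eq, Matrix.one_apply_ne (by decide),
          Matrix.one_fin_two, one_pow, mul_zero]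
      map_mul' := fun g h => by
        have h1 := hdet h
        rw [Matrix.det_fin_two, h10, mul_zero, sub_zero] at h1
        have e : ∀ i j, (q (g * h)).1 i j = (q g).1 i 0 * (q h).1 0 j +
            (q g).1 i 1 * (q h).1 1 j := fun i j => by
          rw [map_mul, Units.val_mul, Matrix.mul_apply, Fin.sum_univ_two]
        rw [e, e, h10 h]
        ext i j
        fin_cases i <;> fin_cases j <;> simp [Matrix.mul_apply, Fin.sum_univ_two]
        · ring
        · linear_combination (q g).1 0 0 * (q g).1 0 1 * h1 }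

theorem aff_apply {K : Type*} [Field K] {G : Type*} [Group G] (q : G →* GL (Fin 2) K)
    (h10 : ∀ g, (q g).1 1 0 = 0) (hdet : ∀ g, (q g).1.det = 1) (g : G) :
    (aff q h10 hdet g).1 = !![(q g).1 0 0 ^ 2, (q g).1 0 0 * (q g).1 0 1; 0, 1] := rfl

theorem aff_eq_one {K : Type*} [Field K] {G : Type*} [Group G] (q : G →* GL (Fin 2) K)
    (h10 : ∀ g, (q g).1 1 0 = 0) (hdet : ∀ g, (q g).1.det = 1) (g : G) :
    aff q h10 hdet g = 1 ↔ q g ∈ Subgroup.center (GL (Fin 2) K) := by
  have h1 := hdet g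
  rw [Matrix.det_fin_two, h10, mul_zero, sub_zero] at h1
  rw [mem_cen]
  constructor
  · intro h
    have h2 : (!![(q g).1 0 0 ^ 2, (q g).1 0 0 * (q g).1 0 1; 0, 1] :
        Matrix (Fin 2) (Fin 2) K) = 1 := by
      rw [← aff_apply q h10 hdet, h, Units.val_one]
    have e00 : (q g).1 0 0 ^ 2 = 1 := by simpa using congrFun (congrFun h2 0) 0
    have e01 : (q g).1 0 0 * (q g).1 0 1 = 0 := by simpa using congrFun (congrFun h2 0) 1
    have hne : (q g).1 0 0 ≠ 0 := left_ne_zero_of_mul_eq_one h1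
    refine ⟨(mul_eq_zero.1 e01).resolve_left hne, h10 g, ?_⟩
    refine mul_left_cancel₀ hne ?_
    rw [h1, ← pow_two, e00]
  · rintro ⟨h2, -, h3⟩
    refine Units.ext ?_
    rw [aff_apply, h2, Units.val_one, Matrix.one_fin_two, mul_zero]
    rw [← h3, ← pow_two] at h1
    rw [h1]

/-- Descent along a surjective homomorphism. -/
theorem descend {Gt G Q : Type*} [Group Gt] [Group G] [Group Q] (p : Gt →* G)
    (hp : Function.Surjective p) (f : Gt →* Q) (h : ∀ g, p g = 1 → f g = 1) :
    ∃ f' : G →* Q, ∀ g, f' (p g) = f g :=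
  ⟨p.liftOfSurjective hp ⟨f, fun g hg => h g hg⟩, fun g =>
    MonoidHom.liftOfRightInverse_comp_apply p _ (Function.rightInverse_surjInv hp) _ g⟩

/-- Row (S): groups of projective transformations such that the traces are integral and the traces
of the commutators are `2`. -/
theorem inRC_p2 {L : Type u} [Field L] [CharZero L] {G Gt : Type u} [Group G] [Group Gt]
    (p : Gt →* G) (hp : Function.Surjective p) (ψ : Gt →* GL (Fin 2) L)
    (hpk : ∀ g, p g = 1 → ψ g ∈ Subgroup.center (GL (Fin 2) L))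
    (hdet : ∀ g, (ψ g).1.det = 1) (ht : ∀ g, IsIntegral ℤ (ψ g).1.trace)
    (hc : ∀ c ∈ commutator Gt, (ψ c).1.trace = 2)
    (htf : ∀ (g : Gt) (n : ℕ), 0 < n → ψ g ^ n ∈ Subgroup.center (GL (Fin 2) L) →
      ψ g ∈ Subgroup.center (GL (Fin 2) L))
    (hker : ∀ (H : Type u) [Group H] (f : H →* G), Function.Injective f →
      (∀ h g, p g = f h → ψ g ∈ Subgroup.center (GL (Fin 2) L)) → InN H) : InRC G := by
  let K := AlgebraicClosure L
  have hcz : CharZero K := charZero_of_injective_algebraMap (algebraMap L K).injective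
  let q1 : Gt →* GL (Fin 2) K := (GeneralLinearGroup.map (algebraMap L K)).comp ψ
  have h0 : ∀ g i j, (q1 g).1 i j = algebraMap L K ((ψ g).1 i j) := fun g i j => rfl
  have htr1 : ∀ g, (q1 g).1.trace = algebraMap L K (ψ g).1.trace := fun g => by
    rw [Matrix.trace_fin_two, Matrix.trace_fin_two, h0, h0, map_add]
  have hdt1 : ∀ g, (q1 g).1.det = 1 := fun g => by
    rw [Matrix.det_fin_two, h0, h0, h0, h0, ← map_mul, ← map_mul, ← map_sub,
      ← Matrix.det_fin_two, hdet, map_one]
  obtain ⟨P, hP⟩ := tri_two q1 fun c hcc => by rw [htr1, hc c hcc, map_ofNat]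
  let q2 : Gt →* GL (Fin 2) K := (MulAut.conj P⁻¹).toMonoidHom.comp q1
  have e2 : ∀ g, q2 g = P⁻¹ * q1 g * P := fun g => by
    show P⁻¹ * q1 g * P⁻¹⁻¹ = _
    rw [inv_inv]
  have htr : ∀ s, (q2 s).1.trace = algebraMap L K (ψ s).1.trace := fun s => by
    rw [e2, Units.val_mul, Matrix.trace_mul_comm, ← Units.val_mul, mul_inv_cancel_left, htr1]
  have hdt : ∀ s, (q2 s).1.det = 1 := fun s => by
    rw [e2, Units.val_mul, Matrix.det_mul, Units.val_mul, Matrix.det_mul, hdt1, mul_one,
      ← Matrix.det_mul, ← Units.val_mul, inv_mul_cancel, Units.val_one, Matrix.det_one]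
  have h10 : ∀ g, (q2 g).1 1 0 = 0 := fun g => by rw [e2]; exact hP g
  have hcen : ∀ g, q2 g ∈ Subgroup.center (GL (Fin 2) K) ↔
      ψ g ∈ Subgroup.center (GL (Fin 2) L) := fun g => by
    rw [e2, cen_conj]
    exact cen_map _
  have had : ∀ g, (q2 g).1 0 0 * (q2 g).1 1 1 = 1 := fun g => by
    have h1 := hdt g
    rwa [Matrix.det_fin_two, h10, mul_zero, sub_zero] at h1
  have haint : ∀ g, IsIntegral ℤ ((q2 g).1 0 0) := fun g => by
    refine isIntegral_root (t := (q2 g).1.trace) (d := 1) ?_ isIntegral_one ?_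
    · rw [htr]
      exact (ht g).map (algebraMap L K).toIntAlgHom
    · rw [Matrix.trace_fin_two]
      linear_combination -had g
  obtain ⟨ρ, hρ⟩ := descend p hp (aff q2 h10 hdt) fun g hg =>
    (aff_eq_one q2 h10 hdt g).2 ((hcen g).2 (hpk g hg))
  have hρ1 : ∀ g, ρ (p g) = 1 ↔ ψ g ∈ Subgroup.center (GL (Fin 2) L) := fun g => by
    rw [hρ, aff_eq_one, hcen]
  refine inRC_slv ρ (fun g => ?_) (fun g => ?_) (fun c hcc => ?_) (fun g n hn h => ?_)
    fun H _ f hf h => ?_
  · obtain ⟨g, rfl⟩ := hp g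
    rw [hρ, aff_apply, Matrix.trace_fin_two_of]
    exact ((haint g).pow 2).add isIntegral_one
  · obtain ⟨g, rfl⟩ := hp g
    rw [hρ, aff_apply, Matrix.det_fin_two_of, mul_one, mul_zero, sub_zero]
    exact (haint g).pow 2
  · have h1 : c ∈ (commutator Gt).map p := by
      rw [commutator_def, Subgroup.map_commutator, Subgroup.map_top_of_surjective p hp]
      exact hcc
    obtain ⟨c', hc', rfl⟩ := h1
    rw [hρ, aff_apply, Matrix.trace_fin_two_of]
    have h2 := htr c'
    rw [hc c' hc', map_ofNat, Matrix.trace_fin_two] at h2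
    have h3 := had c'
    have h4 : ((q2 c').1 0 0 - 1) ^ 2 = 0 := by
      linear_combination (q2 c').1 0 0 * h2 - h3
    have h5 : (q2 c').1 0 0 = 1 := sub_eq_zero.1 ((pow_eq_zero_iff two_ne_zero).1 h4)
    rw [h5]
    norm_num
  · obtain ⟨g, rfl⟩ := hp g
    rw [← map_pow, ← map_pow, hρ1, map_pow] at h
    exact (hρ1 g).2 (htf g n hn h)
  · refine hker H f hf fun x g hg => ?_
    rw [← hρ1, hg]
    exact h x

/-- The same group over the algebraic numbers: the affine case. -/
theorem emb_aff (hAf : AffStatement.{u}) {K : Type u} [Field K] [CharZero K] {G : Type u}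
    [Group G] [Group.FG G] (q : G →* GL (Fin 2) K) (h10 : ∀ g, (q g).1 1 0 = 0)
    (hdet : ∀ g, (q g).1.det = 1) (hq : ∀ g, IsAlgebraic ℤ (q g).1.trace) :
    ∃ q' : G →* GL (Fin 2) (AlgebraicClosure ℚ),
      ∀ g, q' g ∈ Subgroup.center (GL (Fin 2) (AlgebraicClosure ℚ)) ↔
        q g ∈ Subgroup.center (GL (Fin 2) K) := by
  have had : ∀ g, (q g).1 0 0 * (q g).1 1 1 = 1 := fun g => by
    have h1 := hdet g
    rwa [Matrix.det_fin_two, h10, mul_zero, sub_zero] at h1
  have hne : ∀ g, (q g).1 0 0 ≠ 0 := fun g => left_ne_zero_of_mul_eq_one (had g)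
  have hmul : ∀ (g h : G) (i j : Fin 2), (q (g * h)).1 i j = (q g).1 i 0 * (q h).1 0 j +
      (q g).1 i 1 * (q h).1 1 j := fun g h i j => by
    rw [map_mul, Units.val_mul, Matrix.mul_apply, Fin.sum_univ_two]
  let a : G →* Kˣ := MonoidHom.toHomUnits
    { toFun := fun g => (q g).1 0 0
      map_one' := by rw [map_one, gl_one, Matrix.one_apply_eq]
      map_mul' := fun g h => by rw [hmul, h10, mul_zero, add_zero] }
  have ha : ∀ g, (a g : K) = (q g).1 0 0 := fun g => rfl
  let χ : G →* Kˣ := a ^ 2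
  have hχ : ∀ g, (χ g : K) = (q g).1 0 0 ^ 2 := fun g => by
    show ((a g ^ 2 : Kˣ) : K) = _
    rw [Units.val_pow_eq_pow_val, ha]
  let β : G → K := fun g => (q g).1 0 0 * (q g).1 0 1
  have hβ : ∀ g h, β (g * h) = χ g * β h + β g := by
    intro g h
    show (q (g * h)).1 0 0 * (q (g * h)).1 0 1 = χ g * ((q h).1 0 0 * (q h).1 0 1) +
      (q g).1 0 0 * (q g).1 0 1
    rw [hχ, hmul, hmul, h10 h]
    linear_combination (q g).1 0 0 * (q g).1 0 1 * had h
  have hχa : ∀ g, IsAlgebraic ℤ (χ g : K) := by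
    intro g
    refine NT5.alg_quad _ (Units.ne_zero _) ?_
    have h1 := (hq g).pow 2
    have h2 : ((χ g : K) + 1) ^ 2 / χ g = (q g).1.trace ^ 2 := by
      rw [Matrix.trace_fin_two, hχ, div_eq_iff (pow_ne_zero 2 (hne g))]
      linear_combination (-(2 * (q g).1 0 0 ^ 2) - (1 + (q g).1 0 0 * (q g).1 1 1)) * had g
    rw [h2]
    exact h1
  obtain ⟨χ', β', hβ', hχ', hβ0⟩ := hAf K G χ β hβ hχa
  let M : G →* Matrix (Fin 2) (Fin 2) (AlgebraicClosure ℚ) :=
    { toFun := fun g => !![(χ' g : AlgebraicClosure ℚ), β' g; 0, 1]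
      map_one' := by
        have h1 : β' 1 = 0 := (hβ0 1).2 (by
          show (q 1).1 0 0 * (q 1).1 0 1 = 0
          rw [map_one, gl_one 0 1, Matrix.one_apply_ne (show (0 : Fin 2) ≠ 1 by decide),
            mul_zero])
        rw [map_one, h1, Matrix.one_fin_two, Units.val_one]
      map_mul' := fun g h => by
        rw [map_mul, hβ', Units.val_mul]
        ext i j
        fin_cases i <;> fin_cases j <;> simp [Matrix.mul_apply, Fin.sum_univ_two] }
  refine ⟨M.toHomUnits, fun g => ?_⟩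
  have hM : (M.toHomUnits g).1 = !![(χ' g : AlgebraicClosure ℚ), β' g; 0, 1] := rfl
  rw [mem_cen, mem_cen, hM]
  constructor
  · rintro ⟨h1, -, h3⟩
    have h1' : β' g = 0 := h1
    have h3' : (χ' g : AlgebraicClosure ℚ) = 1 := h3
    have f2 : χ g = 1 := (hχ' g).1 (Units.ext h3')
    have f3 : (q g).1 0 0 * (q g).1 0 1 = 0 := (hβ0 g).1 h1'
    refine ⟨(mul_eq_zero.1 f3).resolve_left (hne g), h10 g, ?_⟩
    have f4 : (q g).1 0 0 ^ 2 = 1 := by rw [← hχ, f2, Units.val_one]
    refine mul_left_cancel₀ (hne g) ?_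
    rw [had g, ← pow_two, f4]
  · rintro ⟨h1, -, h3⟩
    have f2 : χ g = 1 := Units.ext (by
      have h4 := had g
      rw [← h3, ← pow_two] at h4
      rw [hχ, h4, Units.val_one])
    refine ⟨?_, rfl, ?_⟩
    · show β' g = 0
      refine (hβ0 g).2 ?_
      show (q g).1 0 0 * (q g).1 0 1 = 0
      rw [h1, mul_zero]
    · show (χ' g : AlgebraicClosure ℚ) = 1
      rw [(hχ' g).2 f2, Units.val_one]

/-- Row (E): finitely generated groups of projective transformations with algebraic traces. -/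
theorem emb_cen (hSp : SpecStatement.{u}) (hAf : AffStatement.{u}) {K : Type u} [Field K]
    [CharZero K] {Gt : Type u} [Group Gt] [hfg : Group.FG Gt] (ψ : Gt →* GL (Fin 2) K)
    (hdet : ∀ g, (ψ g).1.det = 1) (z : Gt) (hz : (ψ z).1 = -1)
    (hq : ∀ g, IsAlgebraic ℤ (ψ g).1.trace) :
    ∃ ψ' : Gt →* GL (Fin 2) (AlgebraicClosure ℚ),
      ∀ g, ψ' g ∈ Subgroup.center (GL (Fin 2) (AlgebraicClosure ℚ)) ↔
        ψ g ∈ Subgroup.center (GL (Fin 2) K) := by
  classical
  let L := AlgebraicClosure K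
  have hcz : CharZero L := charZero_of_injective_algebraMap (algebraMap K L).injective
  let q1 : Gt →* GL (Fin 2) L := (GeneralLinearGroup.map (algebraMap K L)).comp ψ
  have h0 : ∀ g i j, (q1 g).1 i j = algebraMap K L ((ψ g).1 i j) := fun g i j => rfl
  have htr1 : ∀ g, (q1 g).1.trace = algebraMap K L (ψ g).1.trace := fun g => by
    rw [Matrix.trace_fin_two, Matrix.trace_fin_two, h0, h0, map_add]
  have hdt1 : ∀ g, (q1 g).1.det = 1 := fun g => by
    rw [Matrix.det_fin_two, h0, h0, h0, h0, ← map_mul, ← map_mul, ← map_sub,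
      ← Matrix.det_fin_two, hdet, map_one]
  have hal1 : ∀ g, IsAlgebraic ℤ (q1 g).1.trace := fun g => by
    rw [htr1]
    exact NT5.isAlg_map (algebraMap K L) (hq g)
  by_cases hnt : ∃ P : GL (Fin 2) L, ∀ g, (P⁻¹ * q1 g * P).1 1 0 = 0
  · obtain ⟨P, hP⟩ := hnt
    let q2 : Gt →* GL (Fin 2) L := (MulAut.conj P⁻¹).toMonoidHom.comp q1
    have e2 : ∀ g, q2 g = P⁻¹ * q1 g * P := fun g => by
      show P⁻¹ * q1 g * P⁻¹⁻¹ = _
      rw [inv_inv]
    have htr : ∀ s, (q2 s).1.trace = (q1 s).1.trace := fun s => by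
      rw [e2, Units.val_mul, Matrix.trace_mul_comm, ← Units.val_mul, mul_inv_cancel_left]
    have hdt : ∀ s, (q2 s).1.det = 1 := fun s => by
      rw [e2, Units.val_mul, Matrix.det_mul, Units.val_mul, Matrix.det_mul, hdt1, mul_one,
        ← Matrix.det_mul, ← Units.val_mul, inv_mul_cancel, Units.val_one, Matrix.det_one]
    obtain ⟨q', hq'⟩ := emb_aff hAf q2 (fun g => by rw [e2]; exact hP g) hdt
      fun g => by rw [htr]; exact hal1 g
    refine ⟨q', fun g => (hq' g).trans ?_⟩
    rw [e2, cen_conj]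
    exact cen_map _
  · obtain ⟨S, hS⟩ := hfg.out
    obtain ⟨E, hE⟩ := NT5.entries q1 S
    have hE' : ∀ (g : Gt) i j, (q1 g).1 i j ∈ Subring.closure (E : Set L) := fun g =>
      hE g (by rw [hS]; trivial)
    have hEt : ∀ g : Gt, (q1 g).1.trace ∈ Subring.closure (E : Set L) := by
      intro g
      rw [Matrix.trace_fin_two]
      exact Subring.add_mem _ (hE' g 0 0) (hE' g 1 1)
    obtain ⟨s, hs⟩ := hSp L (E : Set L) E.finite_toSet
    let δ : Gt →* GL (Fin 2) (AlgebraicClosure ℚ) := spz q1 _ hE' s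
    have hδ : ∀ g i j, (δ g).1 i j = s ⟨(q1 g).1 i j, hE' g i j⟩ := fun g i j => rfl
    have hδd : ∀ g : Gt, (δ g).1.det = 1 := by
      intro g
      rw [spz_det q1 _ hE' s g (by rw [hdt1]; exact Subring.one_mem _)]
      have h1 : (⟨(q1 g).1.det, by rw [hdt1]; exact Subring.one_mem _⟩ :
          Subring.closure (E : Set L)) = 1 := Subtype.ext (hdt1 g)
      rw [h1, map_one]
    have htr2 : ∀ g ∈ δ.ker, (q1 g).1.trace = 2 := by
      intro g hg
      have hg' : δ g = 1 := hg
      have h1 := spz_trace q1 _ hE' s g (hEt g)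
      have h2 : (δ g).1.trace = 2 := by
        rw [hg', Matrix.trace_fin_two, gl_one, gl_one, Matrix.one_apply_eq, Matrix.one_apply_eq]
        norm_num
      have h3 : s (⟨(q1 g).1.trace, hEt g⟩ - 2) = 0 := by
        rw [map_sub, ← h1, map_ofNat]
        exact sub_eq_zero.2 h2
      have h4 := hs _ (by
        show IsAlgebraic ℤ ((q1 g).1.trace - 2)
        have h5 := isAlgebraic_algebraMap (R := ℤ) (A := L) (2 : ℤ)
        rw [show (algebraMap ℤ L) 2 = 2 by simp] at h5
        exact (hal1 g).sub h5) h3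
      have h5 := congrArg Subtype.val h4
      exact sub_eq_zero.1 h5
    have hker : ∀ g : Gt, δ g = 1 → q1 g = 1 := by
      intro c hc
      by_contra hne
      exact hnt (conj_tri' q1 δ.ker inferInstance htr2 (fun g _ => hdt1 g) c hc hne)
    have hδz : (δ z).1 = -1 := by
      have h1 : ∀ i j, (q1 z).1 i j = -(1 : Matrix (Fin 2) (Fin 2) L) i j := fun i j => by
        rw [h0, hz]
        fin_cases i <;> fin_cases j <;> simp
      ext i j
      rw [hδ]
      fin_cases i <;> fin_cases j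
      · exact (congrArg s (Subtype.ext (by simp [h1]) :
          _ = (-1 : Subring.closure (E : Set L)))).trans (by simp)
      · exact (congrArg s (Subtype.ext (by simp [h1]) :
          _ = (0 : Subring.closure (E : Set L)))).trans (by simp)
      · exact (congrArg s (Subtype.ext (by simp [h1]) :
          _ = (0 : Subring.closure (E : Set L)))).trans (by simp)
      · exact (congrArg s (Subtype.ext (by simp [h1]) :
          _ = (-1 : Subring.closure (E : Set L)))).trans (by simp)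
    refine ⟨δ, fun g => ?_⟩
    have hc1 : q1 g ∈ Subgroup.center (GL (Fin 2) L) ↔ ψ g ∈ Subgroup.center (GL (Fin 2) K) :=
      cen_map _
    rw [← hc1]
    constructor
    · intro h
      have h1 := mem_cen.1 h
      have h2 := hδd g
      rw [Matrix.det_fin_two, h1.1, zero_mul, sub_zero, ← h1.2.2, ← pow_two] at h2
      rcases sq_eq_one_iff.1 h2 with h3 | h3
      · have h4 : δ g = 1 := by
          refine gl_ext fun i j => ?_
          rw [gl_one]
          fin_cases i <;> fin_cases j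
          · exact h3.trans (Matrix.one_apply_eq _).symm
          · exact h1.1.trans (Matrix.one_apply_ne (by decide)).symm
          · exact h1.2.1.trans (Matrix.one_apply_ne (by decide)).symm
          · exact (h1.2.2.symm.trans h3).trans (Matrix.one_apply_eq _).symm
        rw [hker g h4]
        exact Subgroup.one_mem _
      · have h4 : δ (g * z) = 1 := by
          refine Units.ext ?_
          rw [map_mul, Units.val_mul, hδz, Units.val_one, mul_neg, mul_one]
          ext i j
          rw [Matrix.neg_apply]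
          fin_cases i <;> fin_cases j
          · show -(δ g).1 0 0 = (1 : Matrix (Fin 2) (Fin 2) (AlgebraicClosure ℚ)) 0 0
            rw [h3, neg_neg, Matrix.one_apply_eq]
          · show -(δ g).1 0 1 = (1 : Matrix (Fin 2) (Fin 2) (AlgebraicClosure ℚ)) 0 1
            rw [h1.1, neg_zero, Matrix.one_apply_ne (by decide)]
          · show -(δ g).1 1 0 = (1 : Matrix (Fin 2) (Fin 2) (AlgebraicClosure ℚ)) 1 0
            rw [h1.2.1, neg_zero, Matrix.one_apply_ne (by decide)]
          · show -(δ g).1 1 1 = (1 : Matrix (Fin 2) (Fin 2) (AlgebraicClosure ℚ)) 1 1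
            rw [← h1.2.2, h3, neg_neg, Matrix.one_apply_eq]
        have h5 := hker _ h4
        have h6 : q1 g = (q1 z)⁻¹ := by
          rw [map_mul] at h5
          exact eq_inv_of_mul_eq_one_left h5
        rw [h6]
        refine Subgroup.inv_mem _ (mem_cen.2 ⟨?_, ?_, ?_⟩) <;> rw [h0, hz] <;> simp [h0, hz]
    · intro h
      have h1 := mem_cen.1 h
      refine mem_cen.2 ⟨?_, ?_, ?_⟩
      · rw [hδ]
        exact (congrArg s (Subtype.ext h1.1 : _ = (0 : Subring.closure (E : Set L)))).trans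
          (map_zero s)
      · rw [hδ]
        exact (congrArg s (Subtype.ext h1.2.1 : _ = (0 : Subring.closure (E : Set L)))).trans
          (map_zero s)
      · rw [hδ, hδ]
        exact congrArg s (Subtype.ext h1.2.2)

/-- Row (E): the homomorphism to `PGL₂(ℚ̄)`. -/
theorem emb_p2 (hSp : SpecStatement.{u}) (hAf : AffStatement.{u}) {K : Type u} [Field K]
    [CharZero K] {G Gt : Type u} [Group G] [Group Gt] [hfg : Group.FG Gt] (p : Gt →* G)
    (hp : Function.Surjective p) (ψ : Gt →* GL (Fin 2) K)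
    (hpk : ∀ g, p g = 1 → ψ g ∈ Subgroup.center (GL (Fin 2) K))
    (hdet : ∀ g, (ψ g).1.det = 1) (z : Gt) (hz : (ψ z).1 = -1)
    (hq : ∀ g, IsAlgebraic ℤ (ψ g).1.trace) :
    ∃ ψ' : G →* Matrix.ProjGenLinGroup (Fin 2) (AlgebraicClosure ℚ),
      ∀ g, ψ' (p g) = 1 ↔ ψ g ∈ Subgroup.center (GL (Fin 2) K) := by
  obtain ⟨q, hq'⟩ := emb_cen hSp hAf ψ hdet z hz hq
  obtain ⟨f, hf⟩ := descend p hp (Matrix.ProjGenLinGroup.mk.comp q) fun g hg => by
    rw [MonoidHom.comp_apply, Matrix.ProjGenLinGroup.mk_eq_one, hq']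
    exact hpk g hg
  refine ⟨f, fun g => ?_⟩
  rw [hf, MonoidHom.comp_apply, Matrix.ProjGenLinGroup.mk_eq_one, hq']

end Pool.Agent.NegK.NT.H80
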