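import Pool.Agent.Lib.MP_28303a_al.NT.H91.Kgen
import Pool.Agent.Lib.MP_28303a_al.NT.H7.Spl

/-! # Additive functions of perfect complexes and homomorphisms from `K₀` -/

set_option autoImplicit false
set_option linter.unusedSectionVars false
set_option linter.unusedVariables false

namespace Pool.Agent.NegK.NT.H80

universe u v w

open CategoryTheory Limits Pretriangulated Idempotents Matrix

/-! ### Sums -/

/-- `Z` is the sum of `X` and `Y`. -/
structure Dsum {C : Type w} [Category.{v} C] [Preadditive C] (X Y Z : C) where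
  i : X ⟶ Z
  p : Z ⟶ X
  j : Y ⟶ Z
  q : Z ⟶ Y
  ip : i ≫ p = 𝟙 X
  jq : j ≫ q = 𝟙 Y
  iq : i ≫ q = 0
  jp : j ≫ p = 0
  tot : p ≫ i + q ≫ j = 𝟙 Z

/-- The image of a sum under an additive functor. -/
def Dsum.map {C : Type w} [Category.{v} C] [Preadditive C] {D : Type*} [Category D]
    [Preadditive D] (F : C ⥤ D) [F.Additive] {X Y Z : C} (d : Dsum X Y Z) :
    Dsum (F.obj X) (F.obj Y) (F.obj Z) where
  i := F.map d.i
  p := F.map d.p
  j := F.map d.j
  q := F.map d.q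
  ip := by rw [← F.map_comp, d.ip, F.map_id]
  jq := by rw [← F.map_comp, d.jq, F.map_id]
  iq := by rw [← F.map_comp, d.iq, F.map_zero]
  jp := by rw [← F.map_comp, d.jp, F.map_zero]
  tot := by rw [← F.map_comp, ← F.map_comp, ← F.map_add, d.tot, F.map_id]

/-- Sums are unique. -/
theorem Dsum.iso {C : Type w} [Category.{v} C] [Preadditive C] {X Y Z X' Y' Z' : C}
    (d : Dsum X Y Z) (d' : Dsum X' Y' Z') (e : X ≅ X') (e' : Y ≅ Y') : Nonempty (Z ≅ Z') := by
  refine ⟨⟨d.p ≫ e.hom ≫ d'.i + d.q ≫ e'.hom ≫ d'.j,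
    d'.p ≫ e.inv ≫ d.i + d'.q ≫ e'.inv ≫ d.j, ?_, ?_⟩⟩
  · have a1 : (d.p ≫ e.hom ≫ d'.i) ≫ d'.p ≫ e.inv ≫ d.i = d.p ≫ d.i := by
      rw [Category.assoc, Category.assoc, ← Category.assoc d'.i, d'.ip, Category.id_comp,
        Iso.hom_inv_id_assoc]
    have a2 : (d.q ≫ e'.hom ≫ d'.j) ≫ d'.q ≫ e'.inv ≫ d.j = d.q ≫ d.j := by
      rw [Category.assoc, Category.assoc, ← Category.assoc d'.j, d'.jq, Category.id_comp,
        Iso.hom_inv_id_assoc]
    have a3 : (d.p ≫ e.hom ≫ d'.i) ≫ d'.q ≫ e'.inv ≫ d.j = 0 := by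
      rw [Category.assoc, Category.assoc, ← Category.assoc d'.i, d'.iq, zero_comp, comp_zero,
        comp_zero]
    have a4 : (d.q ≫ e'.hom ≫ d'.j) ≫ d'.p ≫ e.inv ≫ d.i = 0 := by
      rw [Category.assoc, Category.assoc, ← Category.assoc d'.j, d'.jp, zero_comp, comp_zero,
        comp_zero]
    rw [Preadditive.add_comp, Preadditive.comp_add, Preadditive.comp_add, a1, a2, a3, a4,
      add_zero, zero_add, d.tot]
  · have a1 : (d'.p ≫ e.inv ≫ d.i) ≫ d.p ≫ e.hom ≫ d'.i = d'.p ≫ d'.i := by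
      rw [Category.assoc, Category.assoc, ← Category.assoc d.i, d.ip, Category.id_comp,
        Iso.inv_hom_id_assoc]
    have a2 : (d'.q ≫ e'.inv ≫ d.j) ≫ d.q ≫ e'.hom ≫ d'.j = d'.q ≫ d'.j := by
      rw [Category.assoc, Category.assoc, ← Category.assoc d.j, d.jq, Category.id_comp,
        Iso.inv_hom_id_assoc]
    have a3 : (d'.p ≫ e.inv ≫ d.i) ≫ d.q ≫ e'.hom ≫ d'.j = 0 := by
      rw [Category.assoc, Category.assoc, ← Category.assoc d.i, d.iq, zero_comp, comp_zero,
        comp_zero]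
    have a4 : (d'.q ≫ e'.inv ≫ d.j) ≫ d.p ≫ e.hom ≫ d'.i = 0 := by
      rw [Category.assoc, Category.assoc, ← Category.assoc d.j, d.jp, zero_comp, comp_zero,
        comp_zero]
    rw [Preadditive.add_comp, Preadditive.comp_add, Preadditive.comp_add, a1, a2, a3, a4,
      add_zero, zero_add, d'.tot]

/-- Biproducts are sums. -/
noncomputable def Dsum.biprod {C : Type w} [Category.{v} C] [Preadditive C]
    [HasBinaryBiproducts C] (X Y : C) : Dsum X Y (X ⊞ Y) where
  i := biprod.inl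
  p := biprod.fst
  j := biprod.inr
  q := biprod.snd
  ip := biprod.inl_fst
  jq := biprod.inr_snd
  iq := biprod.inl_snd
  jp := biprod.inr_fst
  tot := biprod.total

/-! ### Located projective modules at one place -/

section

variable {k : Type u} [Ring k] {Γ : Type u} [Group Γ] {B B' : Type u} [MulAction Γ B]
  [MulAction Γ B'] {P : Pre Γ B} {Q : Pre Γ B'}

/-- The free module of rank `n` at the place `U`. -/
abbrev fr (k : Type u) [Ring k] (P : Pre Γ B) (U : B) (n : ℕ) : Loc k P :=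
  ⟨ULift.{u} (Fin n), fun _ => U⟩

/-- The condition on the entries. -/
def Mok (P : Pre Γ B) (U V : B) {m n : ℕ} (a : Matrix (Fin m) (Fin n) (MonoidAlgebra k Γ)) :
    Prop := ∀ i j g, (a i j).coeff g ≠ 0 → P.le U (g • V)

/-- The morphism of a matrix. -/
noncomputable def oM {U V : B} {m n : ℕ} (a : Matrix (Fin m) (Fin n) (MonoidAlgebra k Γ))
    (ha : Mok P U V a) : fr k P U m ⟶ fr k P V n :=
  Loc.ofB (A := fr k P U m) (A' := fr k P V n)
    (fun i => Finsupp.equivFunOnFinite.symm fun j => a i.down j.down)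
    fun i j g hg => ha i.down j.down g hg

theorem lin_oM {U V : B} {m n : ℕ} (a : Matrix (Fin m) (Fin n) (MonoidAlgebra k Γ))
    (ha : Mok P U V a) (i : ULift.{u} (Fin m)) (j : ULift.{u} (Fin n)) :
    Loc.lin (oM a ha) (Finsupp.single i 1) j = a i.down j.down :=
  congrArg (fun x : ULift.{u} (Fin n) →₀ MonoidAlgebra k Γ => x j)
    (Loc.lin_ofB (A := fr k P U m) (A' := fr k P V n)
      (fun i => Finsupp.equivFunOnFinite.symm fun j => a i.down j.down)
      (fun i j g hg => ha i.down j.down g hg) i)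

theorem oM_comp {U V W : B} {l m n : ℕ} (a : Matrix (Fin l) (Fin m) (MonoidAlgebra k Γ))
    (b : Matrix (Fin m) (Fin n) (MonoidAlgebra k Γ)) (ha : Mok P U V a) (hb : Mok P V W b)
    (c : Matrix (Fin l) (Fin n) (MonoidAlgebra k Γ)) (hc : Mok P U W c) (h : a * b = c) :
    oM a ha ≫ oM b hb = oM c hc := by
  refine Loc.ext_basis fun i => ?_
  refine Finsupp.ext fun j => ?_
  rw [Loc.lin_comp, LinearMap.comp_apply, Loc.map_apply, Finsupp.sum_fintype _ _
    (fun _ => zero_mul _)]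
  rw [lin_oM, ← h, Matrix.mul_apply]
  refine (Finset.sum_congr rfl fun x _ => ?_).trans
    (Equiv.sum_comp Equiv.ulift fun x => a i.down x * b x j.down)
  rw [lin_oM, lin_oM]
  rfl

theorem oM_add {U V : B} {m n : ℕ} (a b : Matrix (Fin m) (Fin n) (MonoidAlgebra k Γ))
    (ha : Mok P U V a) (hb : Mok P U V b) (c : Matrix (Fin m) (Fin n) (MonoidAlgebra k Γ))
    (hc : Mok P U V c) (h : a + b = c) : oM a ha + oM b hb = oM c hc := by
  refine Loc.ext_basis fun i => ?_
  refine Finsupp.ext fun j => ?_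
  rw [Loc.lin_add, LinearMap.add_apply, Finsupp.add_apply, lin_oM, lin_oM, lin_oM, ← h]
  rfl

theorem oM_zero {U V : B} {m n : ℕ} (a : Matrix (Fin m) (Fin n) (MonoidAlgebra k Γ))
    (ha : Mok P U V a) (h : a = 0) : oM a ha = 0 := by
  refine Loc.ext_basis fun i => ?_
  refine Finsupp.ext fun j => ?_
  rw [lin_oM, h]
  rfl

/-- The located projective module of an idempotent matrix. -/
noncomputable def Ye (p : Idem (MonoidAlgebra k Γ)) (U : B) (hp : Mok P U U p.e) : KL k P where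
  X := fr k P U p.n
  p := oM p.e hp
  idem := oM_comp _ _ _ _ _ _ p.idem

/-- The located morphism of a matrix. -/
noncomputable def yM {p q : Idem (MonoidAlgebra k Γ)} {U V : B} {hp : Mok P U U p.e}
    {hq : Mok P V V q.e} (a : Matrix (Fin p.n) (Fin q.n) (MonoidAlgebra k Γ))
    (ha : Mok P U V a) (h1 : p.e * a = a) (h2 : a * q.e = a) : Ye p U hp ⟶ Ye q V hq where
  f := oM a ha
  comm := by
    show oM p.e hp ≫ oM a ha ≫ oM q.e hq = oM a ha
    rw [oM_comp a q.e ha hq a ha h2, oM_comp p.e a hp ha a ha h1]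

/-- Equivalent idempotents give isomorphic objects. -/
theorem Ye_iso (hP : ∀ x y : B, P.le x y) {p q : Idem (MonoidAlgebra k Γ)} (h : p.Equiv q)
    (U V : B) (hp : Mok P U U p.e) (hq : Mok P V V q.e) : Nonempty (Ye p U hp ≅ Ye q V hq) := by
  obtain ⟨a, b, h1, h2⟩ := h
  have hab : ∀ {m n : ℕ} (x : Matrix (Fin m) (Fin n) (MonoidAlgebra k Γ)) (U V : B),
      Mok P U V x := fun x U V i j g hg => hP _ _
  have i1 := p.idem
  have i2 := q.idem
  refine ⟨⟨yM (p.e * a * q.e) (hab _ _ _) ?_ ?_, yM (q.e * b * p.e) (hab _ _ _) ?_ ?_, ?_, ?_⟩⟩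
  · rw [← Matrix.mul_assoc, ← Matrix.mul_assoc, i1]
  · rw [Matrix.mul_assoc (p.e * a), i2]
  · rw [← Matrix.mul_assoc, ← Matrix.mul_assoc, i2]
  · rw [Matrix.mul_assoc (q.e * b), i1]
  · refine Karoubi.hom_ext _ _ ?_
    refine oM_comp _ _ (hab _ _ _) (hab _ _ _) _ hp ?_
    have e1 : a * q.e * b = p.e := by
      rw [← h2, ← Matrix.mul_assoc, h1, Matrix.mul_assoc, h1, i1]
    calc p.e * a * q.e * (q.e * b * p.e) = p.e * (a * (q.e * q.e) * b) * p.e := by
          simp only [Matrix.mul_assoc]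
      _ = p.e := by rw [i2, e1, i1, i1]
  · refine Karoubi.hom_ext _ _ ?_
    refine oM_comp _ _ (hab _ _ _) (hab _ _ _) _ hq ?_
    have e1 : b * p.e * a = q.e := by
      rw [← h1, ← Matrix.mul_assoc, h2, Matrix.mul_assoc, h2, i2]
    calc q.e * b * p.e * (p.e * a * q.e) = q.e * (b * (p.e * p.e) * a) * q.e := by
          simp only [Matrix.mul_assoc]
      _ = q.e := by rw [i1, e1, i2, i2]

/-- The block sum. -/
noncomputable def Ye_sum (hP : ∀ x y : B, P.le x y) (p q : Idem (MonoidAlgebra k Γ)) (U : B)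
    (hp : Mok P U U p.e) (hq : Mok P U U q.e) (hs : Mok P U U (p.sum q).e) :
    Dsum (Ye p U hp) (Ye q U hq) (Ye (p.sum q) U hs) := by
  have hab : ∀ {m n : ℕ} (x : Matrix (Fin m) (Fin n) (MonoidAlgebra k Γ)) (U V : B),
      Mok P U V x := fun x U V i j g hg => hP _ _
  have i1 := p.idem
  have i2 := q.idem
  let σ : Fin (p.n + q.n) ≃ Fin p.n ⊕ Fin q.n := finSumFinEquiv.symm
  let I : Matrix (Fin p.n) (Fin (p.n + q.n)) (MonoidAlgebra k Γ) :=
    (fromCols p.e 0).submatrix (Equiv.refl _) σ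
  let R : Matrix (Fin (p.n + q.n)) (Fin p.n) (MonoidAlgebra k Γ) :=
    (fromRows p.e 0).submatrix σ (Equiv.refl _)
  let J : Matrix (Fin q.n) (Fin (p.n + q.n)) (MonoidAlgebra k Γ) :=
    (fromCols 0 q.e).submatrix (Equiv.refl _) σ
  let S : Matrix (Fin (p.n + q.n)) (Fin q.n) (MonoidAlgebra k Γ) :=
    (fromRows 0 q.e).submatrix σ (Equiv.refl _)
  let E : Matrix (Fin (p.n + q.n)) (Fin (p.n + q.n)) (MonoidAlgebra k Γ) :=
    (fromBlocks p.e 0 0 q.e).submatrix σ σ
  have m1 : p.e * I = I := by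
    show p.e.submatrix (Equiv.refl _) (Equiv.refl _) * I = I
    rw [Matrix.submatrix_mul_equiv, Matrix.mul_fromCols, i1, Matrix.mul_zero]
  have m2 : I * E = I := by
    rw [Matrix.submatrix_mul_equiv, Matrix.fromCols_mul_fromBlocks, i1]
    simp [I]
  have m3 : E * R = R := by
    rw [Matrix.submatrix_mul_equiv, Matrix.fromBlocks_mul_fromRows, i1]
    simp [R]
  have m4 : R * p.e = R := by
    show R * p.e.submatrix (Equiv.refl _) (Equiv.refl _) = R
    rw [Matrix.submatrix_mul_equiv, Matrix.fromRows_mul, i1, Matrix.zero_mul]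
  have m5 : q.e * J = J := by
    show q.e.submatrix (Equiv.refl _) (Equiv.refl _) * J = J
    rw [Matrix.submatrix_mul_equiv, Matrix.mul_fromCols, i2, Matrix.mul_zero]
  have m6 : J * E = J := by
    rw [Matrix.submatrix_mul_equiv, Matrix.fromCols_mul_fromBlocks, i2]
    simp [J]
  have m7 : E * S = S := by
    rw [Matrix.submatrix_mul_equiv, Matrix.fromBlocks_mul_fromRows, i2]
    simp [S]
  have m8 : S * q.e = S := by
    show S * q.e.submatrix (Equiv.refl _) (Equiv.refl _) = S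
    rw [Matrix.submatrix_mul_equiv, Matrix.fromRows_mul, i2, Matrix.zero_mul]
  have m9 : I * R = p.e := by
    rw [Matrix.submatrix_mul_equiv, Matrix.fromCols_mul_fromRows, i1, Matrix.zero_mul, add_zero]
    rfl
  have m10 : J * S = q.e := by
    rw [Matrix.submatrix_mul_equiv, Matrix.fromCols_mul_fromRows, i2, Matrix.zero_mul, zero_add]
    rfl
  have m11 : I * S = 0 := by
    rw [Matrix.submatrix_mul_equiv, Matrix.fromCols_mul_fromRows, Matrix.mul_zero,
      Matrix.zero_mul, add_zero]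
    rfl
  have m12 : J * R = 0 := by
    rw [Matrix.submatrix_mul_equiv, Matrix.fromCols_mul_fromRows, Matrix.mul_zero,
      Matrix.zero_mul, add_zero]
    rfl
  have m13 : R * I + S * J = E := by
    have r1 : R * I = (fromBlocks p.e 0 0 0).submatrix σ σ := by
      rw [Matrix.submatrix_mul_equiv, Matrix.fromRows_mul_fromCols, i1]
      simp
    have r2 : S * J = (fromBlocks 0 0 0 q.e).submatrix σ σ := by
      rw [Matrix.submatrix_mul_equiv, Matrix.fromRows_mul_fromCols, i2]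
      simp
    rw [r1, r2]
    show (fromBlocks p.e 0 0 0 + fromBlocks 0 0 0 q.e).submatrix σ σ = _
    rw [Matrix.fromBlocks_add]
    simp [E]
  exact
    { i := yM I (hab _ _ _) m1 m2
      p := yM R (hab _ _ _) m3 m4
      j := yM J (hab _ _ _) m5 m6
      q := yM S (hab _ _ _) m7 m8
      ip := Karoubi.hom_ext _ _ (oM_comp _ _ (hab _ _ _) (hab _ _ _) _ hp m9)
      jq := Karoubi.hom_ext _ _ (oM_comp _ _ (hab _ _ _) (hab _ _ _) _ hq m10)
      iq := Karoubi.hom_ext _ _ ((oM_comp _ _ (hab _ _ _) (hab _ _ _) _ (hab _ _ _) rfl).trans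
        (oM_zero _ _ m11))
      jp := Karoubi.hom_ext _ _ ((oM_comp _ _ (hab _ _ _) (hab _ _ _) _ (hab _ _ _) rfl).trans
        (oM_zero _ _ m12))
      tot := Karoubi.hom_ext _ _ (by
        show oM R (hab _ _ _) ≫ oM I (hab _ _ _) + oM S (hab _ _ _) ≫ oM J (hab _ _ _) =
          oM E hs
        rw [oM_comp _ _ _ _ (R * I) (hab _ _ _) rfl, oM_comp _ _ _ _ (S * J) (hab _ _ _) rfl]
        exact oM_add _ _ _ _ _ _ m13) }

/-- The functor of the objects in degree `0`. -/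
noncomputable abbrev sK (k : Type u) [Ring k] (P : Pre Γ B) : KL k P ⥤ KKL k P :=
  HomologicalComplex.single (KL k P) (ComplexShape.up ℤ) 0 ⋙
    HomotopyCategory.quotient (KL k P) (ComplexShape.up ℤ)

/-- Change of the locations. -/
theorem kp_sK (m : Loc.Mono P Q) (Y : KL k P) :
    Nonempty ((H91.kpK k m).obj ((sK k P).obj Y) ≅ (sK k Q).obj ((kp m).obj Y)) :=
  ⟨((Functor.isoWhiskerRight
    (HomologicalComplex.singleMapHomologicalComplex (kp (k := k) m) (ComplexShape.up ℤ) 0)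
    (HomotopyCategory.quotient (KL k Q) (ComplexShape.up ℤ))).app Y)⟩

theorem kp_Ye (m : Loc.Mono P Q) (p : Idem (MonoidAlgebra k Γ)) (U : B) (hp : Mok P U U p.e)
    (hp' : Mok Q (m.φ U) (m.φ U) p.e) : (kp m).obj (Ye p U hp) = Ye p (m.φ U) hp' := rfl

/-- The functors `tk` are fully faithful. -/
noncomputable def tk_iso {X Y : KK k P} (e : (tk k P).obj X ≅ (tk k P).obj Y) : X ≅ Y :=
  (tk k P).preimageIso e

end

/-! ### The homomorphism -/

section

variable {Γ : Type u} [Group Γ] (T : Sys Γ) (j : Fin T.m) (k : Type u) [Ring k]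

theorem tot0 (x y : T.Box) : (T.P ∅).le x y := fun i hi => absurd hi (Finset.notMem_empty i)

theorem mok0 (U V : T.Box) {m n : ℕ} (a : Matrix (Fin m) (Fin n) (MonoidAlgebra k Γ)) :
    Mok (T.P ∅) U V a := fun _ _ _ _ => tot0 T _ _

/-- `D` is a lift of the projective module of `p`. -/
def Lft (p : Idem (MonoidAlgebra k Γ)) (D : KK k (T.P {j})) : Prop :=
  Per D ∧ ∀ U : T.Box, Nonempty ((tk k (T.P ∅)).obj
    ((T.L k (Finset.empty_subset {j})).obj D) ≅ (sK k (T.P ∅)).obj (Ye p U (mok0 T k U U p.e)))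

variable {T j k}

theorem lft_of {p : Idem (MonoidAlgebra k Γ)} {D : KK k (T.P {j})} (hD : Per D) (U : T.Box)
    (h : Nonempty ((tk k (T.P ∅)).obj ((T.L k (Finset.empty_subset {j})).obj D) ≅
      (sK k (T.P ∅)).obj (Ye p U (mok0 T k U U p.e)))) : Lft T j k p D := by
  refine ⟨hD, fun V => ?_⟩
  obtain ⟨e⟩ := h
  obtain ⟨e'⟩ := Ye_iso (tot0 T) (p := p) (q := p) ⟨p.e, p.e, p.idem, p.idem⟩ U V
    (mok0 T k U U p.e) (mok0 T k V V p.e)
  exact ⟨e ≪≫ (sK k (T.P ∅)).mapIso e'⟩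

theorem exists_lft (hL : ∀ X : KK k (T.P ∅), Per X → ∃ D : KK k (T.P {j}), Per D ∧
      Nonempty ((T.L k (Finset.empty_subset {j})).obj D ≅ X)) (p : Idem (MonoidAlgebra k Γ)) :
    ∃ D : KK k (T.P {j}), Lft T j k p D := by
  let U : T.Box := fun i => Classical.arbitrary _
  obtain ⟨X, hX, ⟨eX⟩⟩ := spl k (T.P ∅) (Ye p U (mok0 T k U U p.e))
    (inferInstanceAs (Finite (ULift.{u} (Fin p.n))))
  obtain ⟨D, hD, ⟨eD⟩⟩ := hL X hX
  exact ⟨D, lft_of hD U ⟨(tk k (T.P ∅)).mapIso eD ≪≫ eX⟩⟩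

/-- PSI. A function of the perfect objects which is additive on sums and which depends only on the
object without locations gives a homomorphism from `K₀(k[Γ])`. -/
theorem psi {G : Type v} [AddCommGroup G] (F : KK k (T.P {j}) → G)
    (hadd : ∀ X Y : KK k (T.P {j}), Per X → Per Y → ∃ Z : KK k (T.P {j}), Per Z ∧
      Nonempty (Dsum X Y Z) ∧ F Z = F X + F Y)
    (heq : ∀ X X' : KK k (T.P {j}), Per X → Per X' →
      Nonempty ((T.L k (Finset.empty_subset {j})).obj X ≅
        (T.L k (Finset.empty_subset {j})).obj X') → F X = F X')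
    (hL : ∀ X : KK k (T.P ∅), Per X → ∃ D : KK k (T.P {j}), Per D ∧
      Nonempty ((T.L k (Finset.empty_subset {j})).obj D ≅ X)) :
    ∃ Ψ : K0 (MonoidAlgebra k Γ) →+ G, ∀ (p : Idem (MonoidAlgebra k Γ)) (D : KK k (T.P {j})),
      Lft T j k p D → Ψ (K0.cls p) = F D := by
  classical
  choose D hD using exists_lft (T := T) (j := j) hL
  let L := T.L k (Finset.empty_subset {j})
  let U : T.Box := fun i => Classical.arbitrary _
  -- uniqueness
  have huniq : ∀ (p q : Idem (MonoidAlgebra k Γ)) (X X' : KK k (T.P {j})), p.Equiv q →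
      Lft T j k p X → Lft T j k q X' → F X = F X' := by
    intro p q X X' h hX hX'
    obtain ⟨e1⟩ := hX.2 U
    obtain ⟨e2⟩ := hX'.2 U
    obtain ⟨e3⟩ := Ye_iso (tot0 T) h U U (mok0 T k U U p.e) (mok0 T k U U q.e)
    exact heq X X' hX.1 hX'.1 ⟨tk_iso (e1 ≪≫ (sK k (T.P ∅)).mapIso e3 ≪≫ e2.symm)⟩
  have hsum : ∀ (p q : Idem (MonoidAlgebra k Γ)), F (D (p.sum q)) = F (D p) + F (D q) := by
    intro p q
    obtain ⟨Z, hZ, ⟨d⟩, hFZ⟩ := hadd _ _ (hD p).1 (hD q).1
    obtain ⟨e1⟩ := (hD p).2 U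
    obtain ⟨e2⟩ := (hD q).2 U
    have d1 := (d.map L).map (tk k (T.P ∅))
    have d2 := (Ye_sum (tot0 T) p q U (mok0 T k U U p.e) (mok0 T k U U q.e)
      (mok0 T k U U (p.sum q).e)).map (sK k (T.P ∅))
    obtain ⟨e⟩ := d1.iso d2 e1 e2
    have h1 : Lft T j k (p.sum q) Z := lft_of hZ U ⟨e⟩
    rw [← hFZ]
    exact huniq (p.sum q) (p.sum q) _ _ ⟨(p.sum q).e, (p.sum q).e, (p.sum q).idem,
      (p.sum q).idem⟩ (hD _) h1
  let ψ₀ : FreeAbelianGroup (Idem (MonoidAlgebra k Γ)) →+ G :=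
    FreeAbelianGroup.lift fun p => F (D p)
  have hψ₀ : ∀ p, ψ₀ (FreeAbelianGroup.of p) = F (D p) := fun p =>
    FreeAbelianGroup.lift_apply_of _ _
  have hker : K0Rel (MonoidAlgebra k Γ) ≤ ψ₀.ker := by
    unfold K0Rel
    rw [AddSubgroup.closure_le]
    rintro x (⟨p, q, h, rfl⟩ | ⟨p, q, rfl⟩)
    · show ψ₀ _ = 0
      rw [map_sub, hψ₀, hψ₀, huniq p q _ _ h (hD p) (hD q), sub_self]
    · show ψ₀ _ = 0
      rw [map_sub, map_add, hψ₀, hψ₀, hψ₀, hsum, sub_self]
  refine ⟨QuotientAddGroup.lift _ ψ₀ hker, fun p X hX => ?_⟩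
  show ψ₀ (FreeAbelianGroup.of p) = F X
  rw [hψ₀]
  exact huniq p p _ _ ⟨p.e, p.e, p.idem, p.idem⟩ (hD p) hX

/-- The condition for the idempotents over the stabilizer of the location. -/
theorem mok_stab (U : T.Box) (q : Idem (MonoidAlgebra k (MulAction.stabilizer Γ (U j)))) :
    Mok (T.P {j}) U U (q.map (MonoidAlgebra.mapDomainRingHom k
      (MulAction.stabilizer Γ (U j)).subtype)).e := by
  intro a b g hg i hi
  obtain rfl := Finset.mem_singleton.1 hi
  have h1 : g ∈ Set.range (MulAction.stabilizer Γ (U i)).subtype := by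
    by_contra hc
    exact hg (Finsupp.mapDomain_of_notMem_range _ _ hc)
  obtain ⟨h, rfl⟩ := h1
  exact (h.2 : (h : Γ) • U i = U i).ge

/-- The objects at one location. -/
theorem lft_single (U : T.Box) (p : Idem (MonoidAlgebra k Γ)) (hp : Mok (T.P {j}) U U p.e)
    {X : KK k (T.P {j})} (hX : Per X)
    (e : (tk k (T.P {j})).obj X ≅ (sK k (T.P {j})).obj (Ye p U hp)) : Lft T j k p X := by
  refine lft_of hX U ?_
  let m := T.fg (Finset.empty_subset {j})
  obtain ⟨e1⟩ := kp_sK (k := k) m (Ye p U hp)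
  exact ⟨(H91.tkSq k m).app X ≪≫ (H91.kpK k m).mapIso e ≪≫ e1⟩

end

end Pool.Agent.NegK.NT.H80
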